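import Pool.Agent.W2helper73.CC.Law
import Pool.Agent.V11291.FK.Cub3
import Pool.Agent.Helper11K9.Dens.Cheb

/-!
# Project CC: `3` is not a cube modulo a positive proportion of the primes
-/

set_option autoImplicit false
set_option linter.unusedSectionVars false

open scoped Classical

namespace Pool.Agent.W2helper73.CC

open Polynomial NumberField Pool.Agent.W401.Cheb Pool.Agent.Helper11K9.Dens
open Pool.Agent.Y703.CX (lam)
open Pool.Agent.V11291.FK (Dn)

theorem rat_cube (b : ℚ) : b ^ 3 ≠ 3 := by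
  intro h
  have hb : b ≠ 0 := by
    rintro rfl
    norm_num at h
  have h1 : padicValRat 3 (b ^ 3) = 3 * padicValRat 3 b := by
    rw [padicValRat.pow]
    rfl
  have h2 : padicValRat 3 (3 : ℚ) = 1 := by
    have : padicValRat 3 ((3 : ℕ) : ℚ) = 1 := by
      rw [padicValRat.of_nat, padicValNat_self]
      rfl
    exact_mod_cast this
  rw [h, h2] at h1
  omega

theorem irr3 : Irreducible (X ^ 3 - C (3 : ℚ) : ℚ[X]) :=
  X_pow_sub_C_irreducible_of_prime Nat.prime_three rat_cube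

/-- the field generated by the cube roots of `3` -/
theorem exists_field : ∃ E : IntermediateField ℚ ℂ, (∃ _ : NumberField E, IsGalois ℚ E) ∧
    ∃ θ ω : E, θ ^ 3 = 3 ∧ ω ^ 2 + ω + 1 = 0 := by
  set Q : ℚ[X] := X ^ 3 - C 3 with hQ
  have hQ0 : Q ≠ 0 := irr3.ne_zero
  have hs : Q.IsSplittingField ℚ (IntermediateField.adjoin ℚ (Q.rootSet ℂ)) :=
    IntermediateField.adjoin_rootSet_isSplittingField (IsAlgClosed.splits _)
  have hfd : FiniteDimensional ℚ (IntermediateField.adjoin ℚ (Q.rootSet ℂ)) :=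
    IsSplittingField.finiteDimensional _ Q
  have hn : Normal ℚ (IntermediateField.adjoin ℚ (Q.rootSet ℂ)) :=
    Normal.of_isSplittingField Q
  have hmem : ∀ z : ℂ, z ^ 3 = 3 → z ∈ IntermediateField.adjoin ℚ (Q.rootSet ℂ) := by
    intro z hz
    apply IntermediateField.subset_adjoin
    rw [mem_rootSet]
    refine ⟨hQ0, ?_⟩
    rw [hQ]
    simp [hz]
  obtain ⟨θ, hθ⟩ : ∃ z : ℂ, z ^ 3 = 3 := IsAlgClosed.exists_pow_nat_eq 3 (by norm_num)
  obtain ⟨ω, hω⟩ : ∃ z : ℂ, z ^ 2 + z + 1 = 0 := by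
    obtain ⟨x, hx⟩ := IsAlgClosed.exists_root
      (X ^ 2 + X + 1 : ℂ[X]) (by
        have : (X ^ 2 + X + 1 : ℂ[X]).degree = 2 := by
          compute_degree!
        rw [this]
        norm_num)
    refine ⟨x, ?_⟩
    have h1 := hx
    rw [Polynomial.IsRoot] at h1
    simpa using h1
  have hθ0 : θ ≠ 0 := by
    rintro rfl
    norm_num at hθ
  have h1 := hmem θ hθ
  have hω3 : ω ^ 3 = 1 := by linear_combination (ω - 1) * hω
  have h2 := hmem (ω * θ) (by rw [mul_pow, hω3, hθ, one_mul])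
  have h3 : ω ∈ IntermediateField.adjoin ℚ (Q.rootSet ℂ) := by
    have e : ω = ω * θ * θ⁻¹ := by field_simp
    rw [e]
    exact mul_mem h2 (inv_mem h1)
  refine ⟨IntermediateField.adjoin ℚ (Q.rootSet ℂ), ⟨{ }, { }⟩, ⟨θ, h1⟩, ⟨ω, h3⟩, ?_, ?_⟩
  · exact Subtype.ext hθ
  · exact Subtype.ext hω

section gal

variable {E : Type} [Field E] [NumberField E] [IsGalois ℚ E] {θ ω : E}

theorem root_w (hω : ω ^ 2 + ω + 1 = 0) {x : E} (hx : x ^ 2 + x + 1 = 0) :
    x = ω ∨ x = -1 - ω := by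
  have : (x - ω) * (x - (-1 - ω)) = 0 := by linear_combination hx - hω
  rcases mul_eq_zero.1 this with h | h
  · exact Or.inl (sub_eq_zero.1 h)
  · exact Or.inr (sub_eq_zero.1 h)

/-- the quotient of two cube roots of `3` -/
theorem quot_root (hθ : θ ^ 3 = 3) (hω : ω ^ 2 + ω + 1 = 0) {x : E} (hx : x ^ 3 = 3) :
    x = θ ∨ x = ω * θ ∨ x = (-1 - ω) * θ := by
  have : (x - θ) * ((x - ω * θ) * (x - (-1 - ω) * θ)) = 0 := by
    linear_combination hx - hθ - (x * θ ^ 2 - θ ^ 3) * hω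
  rcases mul_eq_zero.1 this with h | h
  · exact Or.inl (sub_eq_zero.1 h)
  rcases mul_eq_zero.1 h with h | h
  · exact Or.inr (Or.inl (sub_eq_zero.1 h))
  · exact Or.inr (Or.inr (sub_eq_zero.1 h))

/-- the elements of order `3` -/
def So (θ ω : E) : Set Gal(E/ℚ) := {σ | σ ω = ω ∧ σ θ ≠ θ}

theorem so_conj (hθ : θ ^ 3 = 3) (hω : ω ^ 2 + ω + 1 = 0) (g : Gal(E/ℚ)) (hg : g ∈ So θ ω)
    (h : Gal(E/ℚ)) : h⁻¹ * g * h ∈ So θ ω := by
  obtain ⟨h1, h2⟩ := hg
  have hgw : ∀ x : E, x ^ 2 + x + 1 = 0 → g x = x := by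
    intro x hx
    rcases root_w hω hx with rfl | rfl
    · exact h1
    · rw [map_sub, map_neg, map_one, h1]
  have hgt : ∀ x : E, x ^ 3 = 3 → g x ≠ x := by
    intro x hx hgx
    have hw0 : ω ≠ 0 := by
      rintro rfl
      norm_num at hω
    have hw1 : (-1 - ω) ≠ 0 := by
      intro h0
      have : ω = -1 := by linear_combination -h0
      rw [this] at hω
      norm_num at hω
    rcases quot_root hθ hω hx with rfl | rfl | rfl
    · exact h2 hgx
    · rw [map_mul, h1] at hgx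
      exact h2 (mul_left_cancel₀ hw0 hgx)
    · rw [map_mul, map_sub, map_neg, map_one, h1] at hgx
      exact h2 (mul_left_cancel₀ hw1 hgx)
  refine ⟨?_, ?_⟩
  · show h⁻¹ (g (h ω)) = ω
    rw [hgw (h ω) (by rw [← map_pow, ← map_add, ← map_one h, ← map_add, hω, map_zero])]
    exact AlgEquiv.symm_apply_apply h ω
  · show h⁻¹ (g (h θ)) ≠ θ
    intro h3
    have h4 : g (h θ) = h θ := by
      have h5 := congrArg h h3
      have h6 : h (h⁻¹ (g (h θ))) = g (h θ) := by
        rw [← AlgEquiv.mul_apply, mul_inv_cancel]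
        rfl
      rw [← h6]
      exact h5
    exact hgt (h θ) (by rw [← map_pow, hθ, map_ofNat]) h4

theorem so_nonempty (hθ : θ ^ 3 = 3) (hω : ω ^ 2 + ω + 1 = 0) : (So θ ω).Nonempty := by
  by_contra hcon
  rw [Set.not_nonempty_iff_eq_empty] at hcon
  have h1 : ∀ σ : Gal(E/ℚ), σ ω = ω → σ θ = θ := by
    intro σ hσ
    by_contra h
    have : σ ∈ So θ ω := ⟨hσ, h⟩
    rw [hcon] at this
    exact this
  have h2 : θ ∈ IntermediateField.adjoin ℚ {ω} := by
    rw [← IsGalois.fixedField_fixingSubgroup (IntermediateField.adjoin ℚ {ω})]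
    rw [IntermediateField.mem_fixedField_iff]
    intro σ hσ
    refine h1 σ ?_
    rw [IntermediateField.mem_fixingSubgroup_iff] at hσ
    exact hσ ω (IntermediateField.mem_adjoin_simple_self ℚ ω)
  have h3 : IntermediateField.adjoin ℚ {θ} ≤ IntermediateField.adjoin ℚ {ω} :=
    IntermediateField.adjoin_simple_le_iff.2 h2
  have h4 : Module.finrank ℚ (IntermediateField.adjoin ℚ {θ}) = 3 := by
    rw [IntermediateField.adjoin.finrank (Algebra.IsIntegral.isIntegral θ)]
    have e : minpoly ℚ θ = X ^ 3 - C 3 := by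
      refine (minpoly.eq_of_irreducible_of_monic irr3 ?_ (monic_X_pow_sub_C _ (by norm_num))).symm
      simp [hθ]
    rw [e]
    exact natDegree_X_pow_sub_C
  have h5 : Module.finrank ℚ (IntermediateField.adjoin ℚ {ω}) ≤ 2 := by
    rw [IntermediateField.adjoin.finrank (Algebra.IsIntegral.isIntegral ω)]
    have hd : (X ^ 2 + X + 1 : ℚ[X]).natDegree = 2 := by compute_degree!
    rw [← hd]
    refine natDegree_le_of_dvd (minpoly.dvd ℚ ω ?_) ?_
    · simpa using hω
    · intro h0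
      rw [h0] at hd
      simp at hd
  have h6 : Module.finrank ℚ (IntermediateField.adjoin ℚ {θ}) ≤
      Module.finrank ℚ (IntermediateField.adjoin ℚ {ω}) :=
    Submodule.finrank_mono (s := (IntermediateField.adjoin ℚ {θ}).toSubalgebra.toSubmodule)
      (t := (IntermediateField.adjoin ℚ {ω}).toSubalgebra.toSubmodule) h3
  omega

theorem frob_prop (hθ : θ ^ 3 = 3) (hω : ω ^ 2 + ω + 1 = 0) {p : ℕ} [Fact p.Prime] (hp3 : p ≠ 3)
    (φ : 𝓞 E →+* AlgebraicClosure (ZMod p)) {σ : Gal(E/ℚ)} (hσ : σ ∈ So θ ω)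
    (hf : HasFrob p φ σ) : p % 3 = 1 ∧ ¬ ∃ x : ℤ, (p : ℤ) ∣ 3 - x ^ 3 := by
  have hp : p.Prime := Fact.out
  have hiθ : IsIntegral ℤ θ := by
    refine ⟨X ^ 3 - C 3, monic_X_pow_sub_C _ (by norm_num), ?_⟩
    simp [hθ]
  have hiω : IsIntegral ℤ ω := by
    refine ⟨X ^ 2 + X + 1, by monicity!, ?_⟩
    simpa using hω
  set t' : 𝓞 E := ⟨θ, hiθ⟩ with ht'
  set w' : 𝓞 E := ⟨ω, hiω⟩ with hw'
  have e1 : t' ^ 3 = 3 := by
    apply RingOfIntegers.ext
    show θ ^ 3 = 3
    exact hθ
  have e2 : w' ^ 2 + w' + 1 = 0 := by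
    apply RingOfIntegers.ext
    show ω ^ 2 + ω + 1 = 0
    exact hω
  have e3 : σ • w' = w' := by
    apply RingOfIntegers.ext
    show σ ω = ω
    exact hσ.1
  have e4 : σ • t' = w' * t' ∨ σ • t' = (-1 - w') * t' := by
    have h1 : (σ θ) ^ 3 = 3 := by rw [← map_pow, hθ, map_ofNat]
    rcases quot_root hθ hω h1 with h | h | h
    · exact absurd h hσ.2
    · left
      apply RingOfIntegers.ext
      exact h
    · right
      apply RingOfIntegers.ext
      exact h
  set t := φ t' with ht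
  set w := φ w' with hw
  have f1 : t ^ 3 = 3 := by rw [ht, ← map_pow, e1, map_ofNat]
  have f2 : w ^ 2 + w + 1 = 0 := by
    rw [hw, ← map_pow, ← map_add, ← map_one φ, ← map_add, e2, map_zero]
  have f3 : w ^ p = w := by
    rw [hw, ← hf w', e3]
  have f4 : t ^ p = w * t ∨ t ^ p = (-1 - w) * t := by
    rcases e4 with h | h
    · left
      rw [ht, hw, ← hf t', h, map_mul]
    · right
      rw [ht, hw, ← hf t', h, map_mul, map_sub, map_neg, map_one]
  have h3 : (3 : AlgebraicClosure (ZMod p)) ≠ 0 := by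
    intro h
    have h' : ((3 : ℕ) : AlgebraicClosure (ZMod p)) = 0 := by exact_mod_cast h
    rw [CharP.cast_eq_zero_iff (AlgebraicClosure (ZMod p)) p] at h'
    exact hp3 ((Nat.prime_dvd_prime_iff_eq hp Nat.prime_three).1 h')
  have ht0 : t ≠ 0 := by
    intro h
    rw [h] at f1
    norm_num at f1
    exact h3 f1.symm
  have hw1 : w ≠ 1 := by
    intro h
    rw [h] at f2
    apply h3
    rw [← f2]
    norm_num
  have hw0 : w ≠ 0 := by
    intro h
    rw [h] at f2
    norm_num at f2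
  have hw3 : w ^ 3 = 1 := by linear_combination (w - 1) * f2
  refine ⟨?_, ?_⟩
  · have ho : orderOf w = 3 := orderOf_eq_prime hw3 hw1
    have h4 : w ^ (p - 1) = 1 := by
      have h5 : w * w ^ (p - 1) = w * 1 := by
        rw [← pow_succ', Nat.sub_add_cancel hp.one_lt.le, f3, mul_one]
      exact mul_left_cancel₀ hw0 h5
    have h5 := orderOf_dvd_of_pow_eq_one h4
    rw [ho] at h5
    have := hp.two_le
    omega
  · rintro ⟨x, hx⟩
    set X' : AlgebraicClosure (ZMod p) := (x : AlgebraicClosure (ZMod p)) with hX'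
    have g1 : X' ^ 3 = 3 := by
      have h6 : ((3 - x ^ 3 : ℤ) : AlgebraicClosure (ZMod p)) = 0 :=
        (CharP.intCast_eq_zero_iff (AlgebraicClosure (ZMod p)) p _).2 hx
      push_cast at h6
      exact (sub_eq_zero.1 h6).symm
    have g2 : X' ^ p = X' := by
      have h7 : ((x : ZMod p)) ^ p = (x : ZMod p) := ZMod.pow_card _
      have h8 := congrArg (algebraMap (ZMod p) (AlgebraicClosure (ZMod p))) h7
      rw [map_pow, map_intCast] at h8
      exact h8
    have hX0 : X' ≠ 0 := by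
      intro h
      rw [h] at g1
      norm_num at g1
      exact h3 g1.symm
    -- `t` is `X'` times a cube root of unity
    have g3 : t ^ p = t := by
      have g4 : (t - X') * ((t - w * X') * (t - (-1 - w) * X')) = 0 := by
        linear_combination f1 - g1 - (t * X' ^ 2 - X' ^ 3) * f2
      have hw2 : (-1 - w) ^ p = -1 - w := by
        have : (-1 - w) = w ^ 2 := by linear_combination -f2
        rw [this, ← pow_mul, mul_comm, pow_mul, f3]
      rcases mul_eq_zero.1 g4 with h | h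
      · rw [sub_eq_zero.1 h]
        exact g2
      rcases mul_eq_zero.1 h with h | h
      · rw [sub_eq_zero.1 h, mul_pow, f3, g2]
      · rw [sub_eq_zero.1 h, mul_pow, hw2, g2]
    rcases f4 with h | h
    · rw [g3] at h
      have h9 : (w - 1) * t = 0 := by linear_combination -h
      rcases mul_eq_zero.1 h9 with h | h
      · exact hw1 (sub_eq_zero.1 h)
      · exact ht0 h
    · rw [g3] at h
      have h9 : (w + 2) * t = 0 := by linear_combination h
      rcases mul_eq_zero.1 h9 with h | h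
      · apply h3
        have h10 : w = -2 := by linear_combination h
        rw [h10] at f2
        rw [← f2]
        norm_num
      · exact ht0 h

end gal

/-- the primes `≡ 1` modulo `3` modulo which `3` is not a cube have a positive proportion -/
theorem dn_three : Dn fun p => p.Prime ∧ p % 3 = 1 ∧ ¬ ∃ x : ℤ, (p : ℤ) ∣ 3 - x ^ 3 := by
  obtain ⟨E, ⟨hE1, hE2⟩, θ, ω, hθ, hω⟩ := exists_field
  obtain ⟨D, hD, htor⟩ := torsor E
  have h1 := lowerDensity_of_frob E (So θ ω) (so_conj hθ hω)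
    {p | p % 3 = 1 ∧ ¬ ∃ x : ℤ, (p : ℤ) ∣ 3 - x ^ 3} (3 * D) (by omega) (by
      intro p hp hpD hφ
      have hpD' : ¬ p ∣ D := fun h => hpD (h.mul_left 3)
      have hp3 : p ≠ 3 := by
        rintro rfl
        exact hpD (dvd_mul_right 3 D)
      have hcard := (htor p hpD').1
      have hne : Nonempty (𝓞 E →+* AlgebraicClosure (ZMod p)) := by
        have h2 : Nat.card (𝓞 E →+* AlgebraicClosure (ZMod p)) ≠ 0 := by
          rw [hcard]
          exact Nat.card_pos.ne'
        exact (Nat.card_ne_zero.1 h2).1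
      obtain ⟨φ⟩ := hne
      obtain ⟨σ, hσ, hf⟩ := hφ φ
      exact frob_prop hθ hω hp3 φ hσ hf)
  have hS : 0 < (Nat.card (So θ ω) : ℝ) / Nat.card Gal(E/ℚ) := by
    have a1 : 0 < Nat.card (So θ ω) := by
      have := (so_nonempty hθ hω).to_subtype
      exact Nat.card_pos
    have a2 : 0 < Nat.card Gal(E/ℚ) := Nat.card_pos
    positivity
  set δ : ℝ := (Nat.card (So θ ω) : ℝ) / Nat.card Gal(E/ℚ) with hδ
  obtain ⟨N₀, hN₀⟩ := h1 (δ / 2) (by positivity)
  obtain ⟨δ', Y₀, hδ', hY⟩ := Pool.Agent.V11291.FK.Cb.pai_low' 1 le_rfl 0 (Nat.coprime_one_right 0)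
  refine ⟨δ / 2 * δ', max N₀ Y₀, by positivity, fun Y hYY => ?_⟩
  have h2 := hN₀ Y ((le_max_left _ _).trans hYY)
  have h3 := hY Y ((le_max_right _ _).trans hYY)
  have h4 : (((Finset.range (Y + 1)).filter fun p => p.Prime ∧ p % 1 = 0 % 1).card : ℝ) =
      Nat.primeCounting Y := by
    rw [Nat.primeCounting, Nat.primeCounting', Nat.count_eq_card_filter_range]
    congr 2
    refine Finset.filter_congr fun p _ => ?_
    constructor
    · exact fun h => h.1
    · exact fun h => ⟨h, by rw [Nat.mod_one, Nat.mod_one]⟩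
  have h3' : δ' * ((Y : ℝ) / Real.log Y) ≤ Nat.primeCounting Y := by
    refine h3.trans (le_of_eq ?_)
    rw [← h4]
    congr 2
    ext p
    simp only [Finset.mem_filter]
  have h5 : (Nat.card {ℓ : ℕ // ℓ ≤ Y ∧ ℓ.Prime ∧ ℓ ∈ {p : ℕ | p % 3 = 1 ∧
      ¬ ∃ x : ℤ, (p : ℤ) ∣ 3 - x ^ 3}}) = ((Finset.range (Y + 1)).filter fun p : ℕ =>
      p.Prime ∧ p % 3 = 1 ∧ ¬ ∃ x : ℤ, (p : ℤ) ∣ 3 - x ^ 3).card := by
    refine Nat.subtype_card _ fun p => ?_
    rw [Finset.mem_filter, Finset.mem_range, Set.mem_ofPred_eq, Nat.lt_succ_iff]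
  rw [h5] at h2
  have h6 : δ / 2 * δ' * ((Y : ℝ) / Real.log Y) ≤ (δ - δ / 2) * Nat.primeCounting Y := by
    have e : δ - δ / 2 = δ / 2 := by ring
    rw [e, mul_assoc]
    exact mul_le_mul_of_nonneg_left h3' (by positivity)
  refine (h6.trans h2).trans (le_of_eq ?_)
  congr 2
  ext p
  simp only [Finset.mem_filter]

/-- all primes are sufficient -/
theorem rich_all : Rich fun _ => True := by
  refine dn_mono (fun p hp => ?_) dn_three
  obtain ⟨h1, h2, h3⟩ := hp
  refine ⟨⟨trivial, h1, h2⟩, fun h => h3 ?_⟩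
  have hnd : ¬ p ∣ 3 := by
    intro h
    have := (Nat.prime_dvd_prime_iff_eq h1 Nat.prime_three).1 h
    omega
  have := (Pool.Agent.Y333.CX.t_LAM.cube p 3 h1 h2 hnd).1 h
  push_cast at this
  exact this

end Pool.Agent.W2helper73.CC
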