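import Pool.Agent.W2helper73.CC.Tri
import Pool.Agent.R486.TC.Cmp

/-!
# Project CC: the criterion is primitive recursive, the rational points
-/

set_option autoImplicit false

namespace Pool.Agent.W2helper73.CC

open Pool.Agent.R486.TC (ball bex imp pdvd peq pne pmul pcube psq pmod pprime pnosplit NoSplitB
  noSplitB_iff)

/-- the class `ClC` with bounded quantifiers -/
def ClB (D : ℕ) : Prop :=
  D ≠ 0 ∧ D ≠ 1 ∧ (∀ p < D + 1, (p.Prime → ¬ p ^ 3 ∣ D)) ∧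
    ∀ p < D + 1, (p.Prime → p ∣ D → p % 3 = 1)

theorem clB_iff (D : ℕ) : ClB D ↔ ClC D := by
  unfold ClB ClC Pool.Agent.Y703.CT.Base
  constructor
  · rintro ⟨h1, h1', h2, h3⟩
    have h4 : ∀ p : ℕ, p.Prime → p ∣ D → p % 3 = 1 := fun p hp hd =>
      h3 p (Nat.lt_succ_of_le (Nat.le_of_dvd (Nat.pos_of_ne_zero h1) hd)) hp hd
    refine ⟨⟨h1, fun h => ?_, fun p hp hd => ?_⟩, h1', h4⟩
    · have := h4 3 Nat.prime_three h
      omega
    · exact h2 p (Nat.lt_succ_of_le (Nat.le_of_dvd (Nat.pos_of_ne_zero h1)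
        ((dvd_pow_self p (by norm_num)).trans hd))) hp hd
  · rintro ⟨⟨h1, h2, h3⟩, h4, h5⟩
    exact ⟨h1, h4, fun p _ hp => h3 p hp, fun p _ hp => h5 p hp⟩

theorem pcl : PrimrecPred ClC := by
  refine PrimrecPred.of_eq (p := ClB) ?_ clB_iff
  have hid : Primrec (fun D : ℕ => D) := Primrec.id
  refine (pne hid (Primrec.const 0)).and ((pne hid (Primrec.const 1)).and
    ((ball (Primrec.succ.comp hid) ?_).and (ball (Primrec.succ.comp hid) ?_)))
  · exact imp (pprime Primrec.fst) (pdvd (pcube Primrec.fst) Primrec.snd).not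
  · exact imp (pprime Primrec.fst) (imp (pdvd Primrec.fst Primrec.snd)
      (peq (pmod Primrec.fst (Primrec.const 3)) (Primrec.const 1)))

/-- the criterion -/
def Tst (N : ℕ) : Prop :=
  ∃ M m : ℕ, m ≠ 0 ∧ N = 3 * M * m ^ 3 ∧ ClC M ∧ Pool.Agent.Y703.CT.NoSplit (3 * M)

theorem ptst' : PrimrecPred (fun N : ℕ => ∃ M < N + 1, ∃ n < N + 1,
    (N = 3 * M * n ^ 3 ∧ n ≠ 0 ∧ ClC M ∧ NoSplitB (3 * M))) := by
  refine bex (f := fun D : ℕ => D + 1) Primrec.succ ?_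
  refine bex (f := fun a : ℕ × ℕ => a.2 + 1) (Primrec.succ.comp Primrec.snd) ?_
  have hn : Primrec (fun a : ℕ × (ℕ × ℕ) => a.1) := Primrec.fst
  have hM : Primrec (fun a : ℕ × (ℕ × ℕ) => a.2.1) := Primrec.fst.comp Primrec.snd
  have hN : Primrec (fun a : ℕ × (ℕ × ℕ) => a.2.2) := Primrec.snd.comp Primrec.snd
  have h3 : Primrec (fun a : ℕ × (ℕ × ℕ) => 3 * a.2.1) := pmul (Primrec.const 3) hM
  exact (peq hN (pmul h3 (pcube hn))).and ((pne hn (Primrec.const 0)).and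
    ((pcl.comp hM).and (pnosplit.comp h3)))

theorem tst_primrec : PrimrecPred Tst := by
  refine ptst'.of_eq (fun N => ?_)
  unfold Tst
  constructor
  · rintro ⟨M, -, n, -, h1, h2, h3, h4⟩
    have h0 : M ≠ 0 := h3.1.1
    exact ⟨M, n, h2, h1, h3, (noSplitB_iff (by omega)).1 h4⟩
  · rintro ⟨M, n, h2, h1, h3, h4⟩
    have h0 : M ≠ 0 := h3.1.1
    have hM : 1 ≤ M := Nat.one_le_iff_ne_zero.2 h0
    have hn : 1 ≤ n := Nat.one_le_iff_ne_zero.2 h2
    have e1 : 1 ≤ n ^ 3 := Nat.one_le_pow _ _ hn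
    have e2 : n ≤ n ^ 3 := Nat.le_self_pow (by norm_num) n
    refine ⟨M, ?_, n, ?_, h1, h2, h3, (noSplitB_iff (by omega)).2 h4⟩
    · rw [h1]; nlinarith
    · rw [h1]; nlinarith

theorem tst_computable : ComputablePred Tst := tst_primrec.computablePred

theorem no_point {M : ℕ} (hC : ClC M) (hN : Pool.Agent.Y703.CT.NoSplit (3 * M)) (X Y : ℚ) :
    X ^ 3 + Y ^ 3 ≠ ((3 * M : ℕ) : ℚ) := by
  intro h
  have h0 : M ≠ 0 := hC.1.1
  have h30 : ¬ 3 ∣ M := hC.1.2.1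
  have h3 : ∀ p : ℕ, p.Prime → ¬ p ^ 3 ∣ 3 * M := by
    intro p hp hd
    by_cases hp3 : p = 3
    · subst hp3
      apply h30
      have h1 : 3 * 9 ∣ 3 * M := hd
      have h2 := Nat.dvd_of_mul_dvd_mul_left (by norm_num) h1
      exact (by norm_num : 3 ∣ 9).trans h2
    · have h1 : Nat.Coprime (p ^ 3) 3 :=
        Nat.Coprime.pow_left 3 ((Nat.coprime_primes hp Nat.prime_three).2 hp3)
      exact hC.1.2.2 p hp (h1.dvd_of_dvd_mul_left hd)
  have h1 := Pool.Agent.R486.TC.diag_of_finite h3 (by omega) (fin_ptsC hC hN) h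
  -- `2 X ^ 3 = 3 M`
  rw [← h1] at h
  have h5 : 2 * X ^ 3 = ((3 * M : ℕ) : ℚ) := by rw [← h]; ring
  -- the `3`-adic valuation
  have hX : X ≠ 0 := by
    rintro rfl
    have h6 : ((3 * M : ℕ) : ℚ) = 0 := by rw [← h5]; ring
    have h7 : 3 * M = 0 := by exact_mod_cast h6
    omega
  have h8 : padicValRat 3 (2 * X ^ 3) = 3 * padicValRat 3 X := by
    rw [padicValRat.mul (by norm_num) (pow_ne_zero 3 hX), padicValRat.pow]
    have h9 : padicValRat 3 (2 : ℚ) = 0 := by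
      have : padicValRat 3 ((2 : ℕ) : ℚ) = 0 := by
        rw [padicValRat.of_nat]
        have : padicValNat 3 2 = 0 := padicValNat.eq_zero_of_not_dvd (by norm_num)
        rw [this]
        rfl
      exact_mod_cast this
    rw [h9]
    push_cast
    ring
  have h10 : padicValRat 3 ((3 * M : ℕ) : ℚ) = 1 := by
    rw [padicValRat.of_nat, padicValNat.mul (by norm_num) h0, padicValNat_self,
      padicValNat.eq_zero_of_not_dvd h30]
    rfl
  rw [h5, h10] at h8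
  omega

theorem sound {A : ℕ} (h : Tst A) (X Y : ℚ) :
    X ^ 3 + Y ^ 3 ≠ (A : ℚ) ∧ X ^ 3 + Y ^ 3 ≠ -(A : ℚ) := by
  obtain ⟨M, m, h1, h2, h3, h4⟩ := h
  have hm : (m : ℚ) ≠ 0 := by exact_mod_cast h1
  have key : ∀ X Y : ℚ, X ^ 3 + Y ^ 3 ≠ (A : ℚ) := by
    intro X Y he
    refine no_point h3 h4 (X / m) (Y / m) ?_
    rw [div_pow, div_pow, ← add_div, he, h2]
    push_cast
    field_simp
  refine ⟨key X Y, fun he => key (-X) (-Y) ?_⟩
  have : (-X) ^ 3 + (-Y) ^ 3 = -(X ^ 3 + Y ^ 3) := by ring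
  rw [this, he]
  ring

end Pool.Agent.W2helper73.CC
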