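import Mathlib
import Pool.Agent.Y180.CT.Loc3

/-!
# Project CC: the cubic twists by `3 P`, the local condition at the prime above three

Adapted from `Pool.Agent.Y180.CT.Loc3` (the case of the twists by `P`).
-/

set_option autoImplicit false
set_option linter.unusedSectionVars false
set_option linter.unusedVariables false

namespace Pool.Agent.W2helper73.CC

open WeierstrassCurve
open Pool.Agent.Y692.QS
open Pool.Agent.Y715.T.Gi Pool.Agent.Y715.T.Nr Pool.Agent.Y715.T.Df Pool.Agent.Y715.T.Ell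
open Pool.Agent.Y715.T.Red Pool.Agent.Y715.T.Thr
open Pool.Agent.Y703.CT
open Pool.Agent.Y180.CT

open scoped Classical

variable {I : PadicAlgCl 3}

/-- valuations of small elements -/
lemma small_val {z : PadicAlgCl 3} {m : ℤ} (h : ‖z‖ ^ 2 = (3 : ℝ) ^ (3 * m)) (h1 : ‖z‖ < 9⁻¹) :
    ‖z‖ ≤ 27⁻¹ := by
  have h2 : ‖z‖ ^ 2 < (9⁻¹ : ℝ) ^ 2 :=
    pow_lt_pow_left₀ h1 (norm_nonneg _) two_ne_zero
  have h3 : m ≤ -2 := by
    rw [h] at h2
    by_contra hcon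
    push Not at hcon
    have h5 : -3 ≤ 3 * m := by omega
    have h6 : (3 : ℝ) ^ (-3 : ℤ) ≤ (3 : ℝ) ^ (3 * m) :=
      zpow_le_zpow_right₀ (by norm_num) h5
    have h7 : (3 : ℝ) ^ (-3 : ℤ) = 27⁻¹ := by norm_num
    rw [h7] at h6
    norm_num at h2
    linarith
  have h4 : ‖z‖ ^ 2 ≤ (27⁻¹ : ℝ) ^ 2 := by
    rw [h]
    have e : ((27⁻¹ : ℝ)) ^ 2 = (3 : ℝ) ^ (-6 : ℤ) := by norm_num
    rw [e]
    exact zpow_le_zpow_right₀ (by norm_num) (by omega)
  exact (pow_le_pow_iff_left₀ (norm_nonneg _) (by norm_num) two_ne_zero).1 h4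

lemma large_val {z : PadicAlgCl 3} {m : ℤ} (h : ‖z‖ ^ 2 = (3 : ℝ) ^ (3 * m)) (h1 : 3⁻¹ < ‖z‖) :
    1 ≤ ‖z‖ := by
  have h2 : (3⁻¹ : ℝ) ^ 2 < ‖z‖ ^ 2 :=
    pow_lt_pow_left₀ h1 (by norm_num) two_ne_zero
  have h3 : 0 ≤ m := by
    rw [h] at h2
    by_contra hcon
    push Not at hcon
    have h5 : 3 * m ≤ -3 := by omega
    have h6 : (3 : ℝ) ^ (3 * m) ≤ (3 : ℝ) ^ (-3 : ℤ) :=
      zpow_le_zpow_right₀ (by norm_num) h5
    have h7 : (3 : ℝ) ^ (-3 : ℤ) = 27⁻¹ := by norm_num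
    rw [h7] at h6
    norm_num at h2
    linarith
  have h4 : (1 : ℝ) ^ 2 ≤ ‖z‖ ^ 2 := by
    rw [h, one_pow]
    exact one_le_zpow₀ (by norm_num) (by omega)
  exact (pow_le_pow_iff_left₀ (by norm_num) (norm_nonneg _) two_ne_zero).1 h4

/-- **the ordinate is a power of `3 (1 + 3 d)` up to cubes and `1 + 3 O`** -/
theorem ord_cubeC (hI : I ^ 2 + I + 1 = 0) {d X Y : PadicAlgCl 3} (hd : d ∈ Kl I)
    (hd1 : ‖d‖ ≤ 1) (hX : X ∈ Kl I) (hY : Y ∈ Kl I) (hY0 : Y ≠ 0)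
    (he : Y ^ 2 + 3 * (1 + 3 * d) * Y = X ^ 3) :
    ∃ c : ℕ, c < 3 ∧ ∃ V ∈ Kl I, V ≠ 0 ∧ ∃ t ∈ Kl I, ‖t‖ ≤ 1 ∧
      Y = V ^ 3 * (3 * (1 + 3 * d)) ^ c * (1 + 3 * t) := by
  have h3n := norm_three'
  have hDn := norm_one_add hd1
  have hD0 := one_add_ne hd1
  have h30 : (3 : PadicAlgCl 3) ≠ 0 := three_ne_zero
  obtain ⟨E, hE⟩ : ∃ E, E = 1 + 3 * d := ⟨_, rfl⟩
  rw [← hE] at hDn hD0 he ⊢
  have hEm : E ∈ Kl I := by rw [hE]; exact add_mem (one_mem _) (mul_mem three_memK hd)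
  have hD : ‖3 * E‖ = 3⁻¹ := by rw [norm_mul, h3n, hDn, mul_one]
  have hDm : 3 * E ∈ Kl I := mul_mem three_memK hEm
  have hDne : 3 * E ≠ 0 := mul_ne_zero h30 hD0
  have hfac : Y * (Y + 3 * E) = X ^ 3 := by rw [← he]; ring
  rcases lt_trichotomy ‖Y‖ 3⁻¹ with h1 | h1 | h1
  · -- `Y` is small
    have h2 : ‖Y + 3 * E‖ = 3⁻¹ := by
      rw [add_comm, eq_of_lt, hD]
      rwa [hD]
    have h3 : ‖3 * Y‖ = ‖X‖ ^ 3 := by
      rw [← norm_pow, ← hfac, norm_mul, norm_mul, h2, h3n]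
      ring
    have hz0 : 3 * Y ≠ 0 := mul_ne_zero h30 hY0
    obtain ⟨m, hm⟩ := cube_val hI (mul_mem three_memK hY) hX hz0 h3
    have h4 : ‖3 * Y‖ ≤ 27⁻¹ := by
      refine small_val hm ?_
      rw [norm_mul, h3n]
      have : (9 : ℝ)⁻¹ = 3⁻¹ * 3⁻¹ := by norm_num
      rw [this]
      exact mul_lt_mul_of_pos_left h1 (by norm_num)
    have hYn : ‖Y‖ ≤ 9⁻¹ := by
      rw [norm_mul, h3n] at h4
      linarith
    have hX0 : X ≠ 0 := by
      rintro rfl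
      rw [norm_zero, zero_pow three_ne_zero, norm_eq_zero] at h3
      exact hz0 h3
    -- `w = Y / (9 E)`
    have hw : Y / (9 * E) ∈ Kl I := div_mem hY (mul_mem (ofNat_mem _ 9) hEm)
    have h9n : ‖(9 : PadicAlgCl 3)‖ = 9⁻¹ := by
      have e : (9 : PadicAlgCl 3) = 3 * 3 := by norm_num
      rw [e, norm_mul, h3n]
      norm_num
    have hw1 : ‖Y / (9 * E)‖ ≤ 1 := by
      rw [norm_div, norm_mul, hDn, h9n, mul_one, div_le_one (by norm_num)]
      exact hYn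
    obtain ⟨t, ht, ht1, e⟩ := inv_exK hw hw1
    refine ⟨2, by norm_num, X / (3 * E), div_mem hX hDm, div_ne_zero hX0 hDne, t, ht, ht1, ?_⟩
    have h90 : (9 : PadicAlgCl 3) ≠ 0 := by norm_num
    have e1 : X ^ 3 = Y * (3 * E) * (1 + 3 * (Y / (9 * E))) := by
      rw [← hfac]
      field_simp
      ring
    rw [div_pow, e1]
    have e2 : Y * (3 * E) * (1 + 3 * (Y / (9 * E))) / (3 * E) ^ 3 * (3 * E) ^ 2 * (1 + 3 * t) =
        Y * ((1 + 3 * (Y / (9 * E))) * (1 + 3 * t)) := by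
      generalize 1 + 3 * (Y / (9 * E)) = a
      generalize 3 * E = b at *
      field_simp
    rw [e2, e, mul_one]
  · -- `‖Y‖ = 1/3`
    by_cases h5 : Y + 3 * E = 0
    · refine ⟨1, by norm_num, -1, neg_mem (one_mem _), neg_ne_zero.2 one_ne_zero, 0, zero_mem _, ?_, ?_⟩
      · rw [norm_zero]
        exact zero_le_one
      · linear_combination h5
    · have h2 : ‖Y + 3 * E‖ ≤ 3⁻¹ := by
        have h6 := IsUltrametricDist.norm_add_le_max Y (3 * E)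
        rw [h1, hD, max_self] at h6
        exact h6
      have h3 : ‖3 * (Y + 3 * E)‖ = ‖X‖ ^ 3 := by
        rw [← norm_pow, ← hfac, norm_mul, norm_mul, h1, h3n]
      have hz0 : 3 * (Y + 3 * E) ≠ 0 := mul_ne_zero h30 h5
      obtain ⟨m, hm⟩ := cube_val hI (mul_mem three_memK (add_mem hY hDm)) hX hz0 h3
      have h4 : ‖3 * (Y + 3 * E)‖ ≤ 27⁻¹ := by
        refine small_val hm ?_
        rcases h2.lt_or_eq with h6 | h6
        · rw [norm_mul, h3n]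
          have : (9 : ℝ)⁻¹ = 3⁻¹ * 3⁻¹ := by norm_num
          rw [this]
          exact mul_lt_mul_of_pos_left h6 (by norm_num)
        · exfalso
          rw [norm_mul, h3n, h6] at hm
          have e1 : ((3⁻¹ : ℝ) * 3⁻¹) ^ 2 = (3 : ℝ) ^ (-4 : ℤ) := by norm_num
          rw [e1] at hm
          have h7 := zpow_right_injective₀ (a := (3 : ℝ)) (by norm_num) (by norm_num) hm
          omega
      have hYn : ‖Y + 3 * E‖ ≤ 9⁻¹ := by
        rw [norm_mul, h3n] at h4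
        linarith
      have h9n : ‖(9 : PadicAlgCl 3)‖ = 9⁻¹ := by
        have e : (9 : PadicAlgCl 3) = 3 * 3 := by norm_num
        rw [e, norm_mul, h3n]
        norm_num
      refine ⟨1, by norm_num, -1, neg_mem (one_mem _), neg_ne_zero.2 one_ne_zero,
        -((Y + 3 * E) / (9 * E)),
        neg_mem (div_mem (add_mem hY hDm) (mul_mem (ofNat_mem _ 9) hEm)), ?_, ?_⟩
      · rw [norm_neg, norm_div, norm_mul, hDn, h9n, mul_one, div_le_one (by norm_num)]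
        exact hYn
      · have h90 : (9 : PadicAlgCl 3) ≠ 0 := by norm_num
        field_simp
        ring
  · -- `Y` is large
    have h2 : ‖Y ^ 2 + 3 * E * Y‖ = ‖Y‖ ^ 2 := by
      rw [eq_of_lt, norm_pow]
      rw [norm_mul, hD, norm_pow]
      have h0 : 0 < ‖Y‖ := lt_trans (by norm_num) h1
      nlinarith
    have h3 : ‖Y‖ ^ 2 = ‖X‖ ^ 3 := by
      rw [← norm_pow X, ← he, h2]
    obtain ⟨m, hm⟩ := cube_val' hI hY hX hY0 h3
    have h4 := large_val hm h1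
    have hX0 : X ≠ 0 := by
      rintro rfl
      rw [norm_zero, zero_pow three_ne_zero] at h3
      exact hY0 (norm_eq_zero.1 (pow_eq_zero_iff two_ne_zero |>.1 h3))
    refine ⟨0, by norm_num, Y / X, div_mem hY hX, div_ne_zero hY0 hX0, E / Y,
      div_mem hEm hY, ?_, ?_⟩
    · rw [norm_div, hDn]
      exact (div_le_one (lt_of_lt_of_le one_pos h4)).2 h4
    · have hX3 : X ^ 3 ≠ 0 := pow_ne_zero 3 hX0
      rw [pow_zero, mul_one, div_pow, ← he]
      rw [← he] at hX3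
      have h8 : 1 + 3 * (E / Y) = (Y ^ 2 + 3 * E * Y) / Y ^ 2 := by
        field_simp
      rw [h8, div_mul_div_cancel₀ hX3]
      field_simp

section final

variable {i₀ : QB} {hi : i₀ ^ 2 + i₀ + 1 = 0} {P : Ei} {u : QB} {a h : GK i₀ → ZMod 3}
  {ι : QB →ₐ[ℚ] PadicAlgCl 3} {R : Pt (PadicAlgCl 3)}

lemma lam_two : lam * lam = -3 := by
  have := lam_sq
  rwa [pow_two] at this

/-- the conclusion -/
lemma concl (hi : i₀ ^ 2 + i₀ + 1 = 0) (ι : QB →ₐ[ℚ] PadicAlgCl 3) (hP : (3 : Ei) ∣ P - 1)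
    {v q : Ei} {g : ℕ} (hv : IsUnit v) (hg : 3 ∣ g) {c : ℕ} (hc3 : c < 3) {V t : PadicAlgCl 3}
    (hV : V ∈ Kl (ι i₀)) (ht : t ∈ Kl (ι i₀)) (ht1 : ‖t‖ ≤ 1)
    (e : ev (ι i₀) (iota_sq' hi ι) (v * lam ^ g * (1 + 3 * q)) *
      ev (ι i₀) (iota_sq' hi ι) (3 * P) ^ c = V ^ 3 * (1 + 3 * t)) : v = 1 ∨ v = -1 := by
  obtain ⟨p, hp⟩ := hP
  have hP1 : P = 1 + 3 * p := by linear_combination hp
  -- powers of `P`
  obtain ⟨r, hr⟩ : ∃ r : Ei, (1 + 3 * q) * P ^ c = 1 + 3 * r := by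
    have h1 : (3 : Ei) ∣ (1 + 3 * q) * P ^ c - 1 := by
      have h2 : (3 : Ei) ∣ P ^ c - 1 := by
        have h4 := sub_dvd_pow_sub_pow P 1 c
        rw [one_pow] at h4
        exact dvd_trans ⟨p, hp⟩ h4
      have e1 : (1 + 3 * q) * P ^ c - 1 = 3 * (q * P ^ c) + (P ^ c - 1) := by ring
      rw [e1]
      exact dvd_add (Dvd.intro _ rfl) h2
    obtain ⟨r, hr⟩ := h1
    exact ⟨r, by linear_combination hr⟩
  have e1 : v * lam ^ g * (1 + 3 * q) * (3 * P) ^ c =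
      ((-1) ^ c * v) * lam ^ (g + 2 * c) * (1 + 3 * r) := by
    have e3 : (-3 : Ei) ^ c = (-1) ^ c * 3 ^ c := by rw [← mul_pow]; norm_num
    rw [← hr, pow_add, pow_mul, pow_two, lam_two, e3, mul_pow]
    have : ((-1 : Ei) ^ c) * (-1) ^ c = 1 := by rw [← mul_pow]; norm_num
    linear_combination (-(v * lam ^ g * (1 + 3 * q) * 3 ^ c * P ^ c)) * this
  have e2 : ev (ι i₀) (iota_sq' hi ι) (((-1) ^ c * v) * lam ^ (g + 2 * c) * (1 + 3 * r)) =
      V ^ 3 * (1 + 3 * t) := by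
    rw [← e1, map_mul, map_pow, e]
  have hu : IsUnit ((-1 : Ei) ^ c * v) := ((isUnit_one.neg).pow c).mul hv
  have h2 := fin_of (q := r) hi ι hu hV ht ht1 e2
  have hc0 : c = 0 := by
    have h3 := h2.1
    omega
  have h4 := h2.2
  rw [hc0, pow_zero, one_mul] at h4
  exact h4

/-- **The local condition at three.** -/
theorem core3C (hP : (3 : Ei) ∣ P - 1) (hT : Tw hi (3 * P) u a)
    {v q : Ei} {g : ℕ} (hv : IsUnit v) (hg : 3 ∣ g)
    (hK : Kc hi (v * lam ^ g * (1 + 3 * q)) h)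
    (hS : St1 hi ι a h R) : v = 1 ∨ v = -1 := by
  have hI := iota_sq' hi ι
  have hI3 : ι i₀ ^ 3 = 1 := by linear_combination (ι i₀ - 1) * hI
  obtain ⟨d₀, hd₀⟩ := id hP
  obtain ⟨d, hd⟩ : ∃ d, d = ev (ι i₀) hI d₀ := ⟨_, rfl⟩
  have hdm : d ∈ Kl (ι i₀) := by rw [hd]; exact ev_mem hI d₀
  have hd1 : ‖d‖ ≤ 1 := by rw [hd]; exact ev_le hI d₀
  have hDe : ev (ι i₀) hI (3 * P) = 3 * (1 + 3 * d) := by
    have e : P = 1 + 3 * d₀ := by rw [← hd₀]; ring
    rw [e, hd, map_mul, map_add, map_one, map_mul, map_ofNat]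
  have hU3 : ι u ^ 3 = 3 * (1 + 3 * d) := by
    rw [← map_pow, hT.cube, iota_ev' hi ι, hDe]
  have h30 : (3 : PadicAlgCl 3) ≠ 0 := three_ne_zero
  have hU0 : ι u ≠ 0 := by
    intro h0
    rw [h0, zero_pow three_ne_zero] at hU3
    exact mul_ne_zero h30 (one_add_ne hd1) hU3.symm
  -- the cube root
  obtain ⟨s, hs⟩ := IsAlgClosed.exists_pow_nat_eq (ev i₀ hi (v * lam ^ g * (1 + 3 * q)))
    (n := 3) (by norm_num)
  have hZ : ι s ^ 3 = ev (ι i₀) hI (v * lam ^ g * (1 + 3 * q)) := by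
    rw [← map_pow, hs, iota_ev' hi ι]
  have hts : ∀ (τ : Au 3) (σ : GK i₀), Cmp ι τ σ → τ (ι s) = ι i₀ ^ (h σ).val * ι s := by
    intro τ σ hc
    rw [hc, hK s hs σ, map_mul, map_pow]
  have hz0 : v * lam ^ g * (1 + 3 * q) ≠ 0 := by
    refine mul_ne_zero (mul_ne_zero hv.ne_zero (pow_ne_zero _ prime_lam.ne_zero)) ?_
    intro h0
    have h1 : ev (ι i₀) hI (1 + 3 * q) = 0 := by rw [h0, map_zero]
    rw [map_add, map_one, map_mul, map_ofNat] at h1
    exact one_add_ne (ev_le hI q) h1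
  have hZ0 : ι s ^ 3 ≠ 0 := by
    rw [hZ]
    exact ev_ne hI hz0
  have hs0 : ι s ≠ 0 := fun h0 => hZ0 (by rw [h0, zero_pow three_ne_zero])
  have hZm : ι s ^ 3 ∈ Kl (ι i₀) := by rw [hZ]; exact ev_mem hI _
  by_cases hQ0 : R - im (isE _) hI R = 0
  · -- `R` is a multiple of `T`
    obtain ⟨c, hc⟩ := ker_tt hI hQ0
    have hm : ι s ∈ Kl (ι i₀) := by
      intro τ hτ
      obtain ⟨σ, hcm⟩ := exists_cmp ι τ hτ
      have h1 := hS τ σ hcm
      rw [hc, pm_tt, jj_tt, sub_self] at h1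
      have h2 := tt_eq_zero.1 h1.symm
      rw [hts τ σ hcm, h2, ZMod.val_zero, pow_zero, one_mul]
    refine concl (q := q) hi ι hP hv hg (c := 0) (by norm_num) hm (zero_mem _)
      (by rw [norm_zero]; exact zero_le_one) ?_
    rw [← hZ]
    ring
  · obtain ⟨x, y, hn, hR⟩ : ∃ x y, ∃ hn : (W0.baseChange (PadicAlgCl 3)).toAffine.Nonsingular x y,
        R = .some x y hn := by
      rcases R with _ | ⟨x, y, hn⟩
      · exfalso
        apply hQ0
        show (0 : Pt (PadicAlgCl 3)) - im (isE _) hI 0 = 0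
        rw [map_zero, sub_zero]
      · exact ⟨x, y, hn, rfl⟩
    have he := ((isE _).eqn x y).1 hn.1
    have hx : x ≠ 0 := by
      intro h0
      apply hQ0
      rw [hR, im_some, sub_eq_zero, Affine.Point.some.injEq]
      exact ⟨by rw [h0, mul_zero], rfl⟩
    obtain ⟨XQ, hnQ, eQ⟩ : ∃ XQ, ∃ hnQ : (W0.baseChange (PadicAlgCl 3)).toAffine.Nonsingular XQ
        (gg (ι i₀) R ^ 3), R - im (isE _) hI R = .some XQ _ hnQ := by
      rw [hR]
      obtain ⟨XQ, hnQ, eQ, -⟩ := one_sub_im (isE _) hI hn hx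
      exact ⟨XQ, hnQ, eQ⟩
    by_cases hG : gg (ι i₀) R = 0
    · -- `R - J R = T`
      have hlam := lam_ne (isE (PadicAlgCl 3)) hI
      have hy : y = ι i₀ ^ 2 := by
        rw [hR, gg_some, div_eq_zero_iff] at hG
        rcases hG with h1 | h1
        · exact sub_eq_zero.1 h1
        · exact absurd h1 (mul_ne_zero hlam hx)
      have h0 := (isE (PadicAlgCl 3)).neg_nons hn
      have hR' : -R = .some x (-y - 1) h0 := by
        rw [hR]
        exact (isE _).neg_eq hn h0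
      have hgg : gg (ι i₀) (-R) = 1 / x := by
        rw [hR', gg_some, hy, div_eq_div_iff (mul_ne_zero hlam hx) hx]
        linear_combination (-2 * x) * hI
      have hx3 : x ^ 3 = -1 := by
        rw [← he, hy]
        linear_combination (ι i₀ ^ 2 - ι i₀ + 1) * hI
      have hW3 : (ι u * gg (ι i₀) (-R)) ^ 3 = (-1) ^ 3 * (3 * (1 + 3 * d)) := by
        rw [hgg, mul_pow, hU3, div_pow, hx3]
        ring
      have hW0 : ι u * gg (ι i₀) (-R) ≠ 0 := by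
        rw [hgg]
        exact mul_ne_zero hU0 (div_ne_zero one_ne_zero hx)
      have hm : ι s / (ι u * gg (ι i₀) (-R)) ∈ Kl (ι i₀) := by
        intro τ hτ
        obtain ⟨σ, hcm⟩ := exists_cmp ι τ hτ
        rw [map_div₀, hts τ σ hcm, tau_g hT (st1_neg hS) hR' hx hcm]
        have h1 := pow_three hI (-h σ)
        rw [neg_neg] at h1
        rw [← h1, mul_div_mul_left]
        exact pow_ne_zero _ (I_ne (isE (PadicAlgCl 3)) hI)
      have hDm : 3 * (1 + 3 * d) ∈ Kl (ι i₀) :=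
        mul_mem three_memK (add_mem (one_mem _) (mul_mem three_memK hdm))
      refine concl (q := q) hi ι hP hv hg (c := 2) (by norm_num)
        (V := -(ι s / (ι u * gg (ι i₀) (-R))) * (3 * (1 + 3 * d))) (t := 0)
        (mul_mem (neg_mem hm) hDm) (zero_mem _) (by rw [norm_zero]; exact zero_le_one) ?_
      rw [← hZ, hDe]
      have hc := mul_ne_zero h30 (one_add_ne hd1)
      obtain ⟨b, hb⟩ : ∃ b, b = 3 * (1 + 3 * d) := ⟨_, rfl⟩
      obtain ⟨W, hW⟩ : ∃ W, W = ι u * gg (ι i₀) (-R) := ⟨_, rfl⟩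
      rw [← hb] at hW3 hc ⊢
      rw [← hW] at hW3 hW0 ⊢
      have e5 : (-(ι s / W) * b) ^ 3 * (1 + 3 * 0) = -(ι s ^ 3 / W ^ 3) * b ^ 3 := by ring
      rw [e5, hW3]
      field_simp
    · -- the general case
      have hW0 : ι u * gg (ι i₀) R ≠ 0 := mul_ne_zero hU0 hG
      have hm : ι s * (ι u * gg (ι i₀) R) ∈ Kl (ι i₀) := by
        intro τ hτ
        obtain ⟨σ, hcm⟩ := exists_cmp ι τ hτ
        rw [map_mul, hts τ σ hcm, tau_g hT hS hR hx hcm]
        have h1 := pow_cancel hI (h σ)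
        linear_combination (ι s * (ι u * gg (ι i₀) R)) * h1
      obtain ⟨W, hW⟩ : ∃ W, W = ι u * gg (ι i₀) R := ⟨_, rfl⟩
      rw [← hW] at hm hW0
      have hYm : W ^ 3 ∈ Kl (ι i₀) := by
        have e : W ^ 3 = (ι s * W) ^ 3 / ι s ^ 3 := by
          rw [mul_pow, mul_div_cancel_left₀ _ hZ0]
        rw [e]
        exact div_mem (pow_mem hm 3) hZm
      have hXm : ι u ^ 2 * XQ ∈ Kl (ι i₀) := tau_X hT hS eQ
      have heq := ((isE _).eqn _ _).1 hnQ.1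
      have heY : (W ^ 3) ^ 2 + 3 * (1 + 3 * d) * W ^ 3 = (ι u ^ 2 * XQ) ^ 3 := by
        rw [hW, ← hU3]
        linear_combination (ι u ^ 6) * heq
      obtain ⟨c, hc3, V, hV, hV0, t, ht, ht1, eY⟩ := ord_cubeC hI hdm hd1 hXm hYm
        (pow_ne_zero 3 hW0) heY
      obtain ⟨t', ht', ht1', et⟩ := inv_exK ht ht1
      refine concl (q := q) hi ι hP hv hg hc3 (V := ι s * W / V) (t := t') (div_mem hm hV) ht'
        ht1' ?_
      rw [← hZ, hDe]
      obtain ⟨b, hb⟩ : ∃ b, b = 3 * (1 + 3 * d) := ⟨_, rfl⟩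
      rw [← hb] at eY ⊢
      rw [div_pow, mul_pow, eY]
      have hV3 : V ^ 3 ≠ 0 := pow_ne_zero 3 hV0
      have e3 : ι s ^ 3 * (V ^ 3 * b ^ c * (1 + 3 * t)) / V ^ 3 * (1 + 3 * t') =
          ι s ^ 3 * b ^ c * ((1 + 3 * t) * (1 + 3 * t')) := by
        field_simp
      rw [e3, et, mul_one]

end final

end Pool.Agent.W2helper73.CC
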