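import Pool.Agent.Y153.CT.RAM

/-!
# Project CC: local conditions at the primes not above three, for the twists by `3 P`

Adapted from `Pool.Agent.Y153.CT.RAM`.
-/

set_option autoImplicit false
set_option linter.unusedVariables false

open scoped Classical

namespace Pool.Agent.W2helper73.CC

open WeierstrassCurve
open Pool.Agent.Y703.CT
open Pool.Agent.Y692.QS (Ei w nr toC)
open Pool.Agent.Y715.T.RecG (Pq)
open Pool.Agent.Y715.T.Gi Pool.Agent.Y715.T.Nr Pool.Agent.Y715.T.Df Pool.Agent.Y715.T.Ell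
open Pool.Agent.Y715.T.Red Pool.Agent.Y715.T.Odd
open Pool.Agent.Y153.CTRAM

variable {p : ℕ} [Fact p.Prime]

lemma three_pD {J : Type} [Fintype J] {π : J → Ei} {e : J → ZMod 3} (hD : Dt π e) :
    (3 : Ei) * pD π e ≠ 0 := mul_ne_zero (by decide) (ne_zero_of hD)

lemma norm_ev_three {I : PadicAlgCl p} (hI : I ^ 2 + I + 1 = 0) (hp : p ≠ 3) :
    ‖ev I hI 3‖ = 1 := by
  rw [map_ofNat, norm_three_one hp]

/-- the unramified primes -/
theorem unrC {J : Type} [Fintype J] {π : J → Ei} {e : J → ZMod 3} (hD : Dt π e)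
    {i₀ : QB} {hi : i₀ ^ 2 + i₀ + 1 = 0} {u : QB} {a : GK i₀ → ZMod 3}
    (hT : Tw hi (3 * pD π e) u a) (h : GK i₀ → ZMod 3) (ι : QB →ₐ[ℚ] PadicAlgCl p) (hp : p ≠ 3)
    (hπ : ∀ j, ¬ ‖ι (ev i₀ hi (π j))‖ < 1) (R : Pt (PadicAlgCl p)) (hS : St1 hi ι a h R)
    (τ : Au p) (σ : GK i₀) (hc : Cmp ι τ σ) (hτ : Inert τ) : a σ = 0 ∧ h σ = 0 := by
  have hI := iota_sq' hi ι
  have h3 := norm_three_one (p := p) hp
  have hu := u_ne hT (three_pD hD)
  have ha : a σ = 0 := by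
    refine a_zero hT hu ?_
    apply ι.injective
    show ι (σ u) = ι u
    rw [← hc]
    have hτI : τ (ι i₀) = ι i₀ := hc.fix
    refine fix_of_unit hI hp (z := ι (ev i₀ hi (3 * pD π e))) ?_ ?_ hτ ?_
    · rw [← map_pow, hT.cube]
    · rw [iota_ev, map_mul, norm_mul, norm_ev_three hI hp, one_mul]
      unfold pD
      rw [map_prod, norm_prod]
      apply Finset.prod_eq_one
      intro j _
      rw [map_pow, norm_pow]
      have h4 := hπ j
      rw [iota_ev] at h4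
      rw [eq_one_of_not_lt hI h4, one_pow]
    · rw [iota_ev]
      exact ev_fix hI hτI _
  refine ⟨ha, ?_⟩
  have h4 := hS τ σ hc
  rw [ha, jj_zero] at h4
  apply tt_mem (p := p)
  rw [← h4]
  exact inert_mem h3 hτ _

/-- the residue characteristic is not three -/
lemma p_ne {J : Type} [Fintype J] {π : J → Ei} {e : J → ZMod 3} (hD : Dt π e)
    {i₀ : QB} {hi : i₀ ^ 2 + i₀ + 1 = 0} (j : J) (ι : QB →ₐ[ℚ] PadicAlgCl p)
    (hπ : ‖ι (ev i₀ hi (π j))‖ < 1) : p ≠ 3 := by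
  have hI := iota_sq' hi ι
  have hπ' := hπ
  rw [iota_ev] at hπ'
  rintro rfl
  obtain ⟨q, hq⟩ := (hD.pq j).three
  have e1 : π j = 1 + 3 * q := by linear_combination hq
  have h1 : ‖ev (ι i₀) hI (3 * q)‖ < 1 := by
    rw [map_mul]
    rw [mul_comm]
    refine mul_lt (ev_le hI q) ?_
    rw [map_ofNat, norm_three']
    norm_num
  have h2 : ‖ev (ι i₀) hI (π j)‖ = 1 := by
    rw [e1, map_add, map_one, eq_of_lt, norm_one]
    rwa [norm_one]
  rw [h2] at hπ'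
  exact lt_irrefl _ hπ'

/-- an automorphism of the inertia group which moves the cube root -/
theorem exists_move {J : Type} [Fintype J] {π : J → Ei} {e : J → ZMod 3} (hD : Dt π e)
    {i₀ : QB} {hi : i₀ ^ 2 + i₀ + 1 = 0} {u : QB} {a : GK i₀ → ZMod 3}
    (hT : Tw hi (3 * pD π e) u a) (j : J) (ι : QB →ₐ[ℚ] PadicAlgCl p)
    (hπ : ‖ι (ev i₀ hi (π j))‖ < 1) :
    ∃ (τ : Au p) (σ : GK i₀), Cmp ι τ σ ∧ Inert τ ∧ a σ ≠ 0 := by
  have hI := iota_sq' hi ι
  have hu := u_ne hT (three_pD hD)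
  have hp := p_ne hD j ι hπ
  have hπ' := hπ
  rw [iota_ev] at hπ'
  have h3 := norm_three_one (p := p) hp
  have hpr := (hD.pq j).prime
  by_contra hcon
  push Not at hcon
  have hfix : ∀ τ : Au p, Inert τ → τ (ι i₀) = ι i₀ → τ (ι u) = ι u := by
    intro τ hτ hτI
    obtain ⟨σ, hc⟩ := exists_cmp ι τ hτI
    rw [hc, hT.act σ, hcon τ σ hc hτ, neg_zero, ZMod.val_zero, pow_zero, one_mul]
  obtain ⟨m, hm⟩ := norm_odd hI hp (z := ι u) ((map_ne_zero ι).2 hu) hfix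
  have hn : ‖(ι u) ^ 3‖ = (p : ℝ) ^ (-((e j).val : ℤ)) := by
    rw [← map_pow, hT.cube, iota_ev, map_mul, norm_mul, norm_ev_three hI hp, one_mul]
    unfold pD
    rw [map_prod, norm_prod, Finset.prod_eq_single j]
    · rw [map_pow, norm_pow, norm_prime hI hp hpr hπ', inv_pow, zpow_neg, zpow_natCast]
    · intro i _ hij
      rw [map_pow, norm_pow]
      have h4 : ¬ ‖ev (ι i₀) hI (π i)‖ < 1 := by
        intro h5
        exact hD.nd i j hij ((dvd_iff hI hpr hπ' _).2 h5)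
      rw [eq_one_of_not_lt hI h4, one_pow]
    · intro h4
      exact absurd (Finset.mem_univ j) h4
  have h5 := three_of hm hn
  have h6 : (e j).val < 3 := ZMod.val_lt _
  have h7 : (e j).val ≠ 0 := by
    intro h8
    exact hD.e0 j ((ZMod.val_eq_zero _).1 h8)
  omega

/-- the primes dividing `P` -/
theorem ramC {J : Type} [Fintype J] {π : J → Ei} {e : J → ZMod 3} (hD : Dt π e)
    {i₀ : QB} {hi : i₀ ^ 2 + i₀ + 1 = 0} {u : QB} {a : GK i₀ → ZMod 3}
    (hT : Tw hi (3 * pD π e) u a) (h : GK i₀ → ZMod 3) (j : J) (ι : QB →ₐ[ℚ] PadicAlgCl p)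
    (hπ : ‖ι (ev i₀ hi (π j))‖ < 1) (R : Pt (PadicAlgCl p)) (hS : St1 hi ι a h R) :
    ∃ ε : ZMod 3, ∀ (τ : Au p) (σ : GK i₀), Cmp ι τ σ → h σ = ε * a σ := by
  have hI := iota_sq' hi ι
  have hu := u_ne hT (three_pD hD)
  have hp := p_ne hD j ι hπ
  have hπ' := hπ
  rw [iota_ev] at hπ'
  have h3 := norm_three_one (p := p) hp
  have hpr := (hD.pq j).prime
  obtain ⟨τ₁, σ₁, hc₁, hτ₁, ha₁⟩ := exists_move hD hT j ι hπ
  obtain ⟨hn3, hT3⟩ := exists_T3 hI
  set T3 : Pt (PadicAlgCl p) := Affine.Point.some (-1) ((ι i₀) ^ 2) hn3 with hT3d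
  have hjT3 : ∀ c : ZMod 3, jj hI c T3 = T3 - tt _ c := by
    intro c
    rcases z3 c with rfl | rfl | rfl
    · rw [jj_zero, tt_zero, sub_zero]
    · rw [jj_one, hT3]
    · rw [jj_neg_one, hT3, map_sub, im_tt, hT3, sub_sub, ← tt_add]
      congr 2
  have hlT3 : ∀ τ : Au p, τ (ι i₀) = ι i₀ → pm (lh τ) T3 = T3 := by
    intro τ hτI
    rw [hT3d, pm_some, Affine.Point.some.injEq]
    rw [lh_apply, lh_apply]
    constructor
    · rw [map_neg, map_one]
    · rw [map_pow, hτI]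
  -- the correction
  obtain ⟨ε, hε⟩ : ∃ ε : ZMod 3, ε * a σ₁ = h σ₁ := by
    refine ⟨h σ₁ * a σ₁, ?_⟩
    have : ∀ x y : ZMod 3, y ≠ 0 → x * y * y = x := by decide
    exact this _ _ ha₁
  refine ⟨ε, ?_⟩
  set R' : Pt (PadicAlgCl p) := R + ε.val • T3 with hR'
  have hmem : jj hI (a σ₁) R' - R' ∈ E1 (isE (PadicAlgCl p)) := by
    have h4 := hS τ₁ σ₁ hc₁
    have h5 := jj_mem hI (a σ₁) (inert_mem h3 hτ₁ R)
    rw [jj_sub] at h5
    have e1 : jj hI (a σ₁) R' - R' = -(jj hI (a σ₁) (pm (lh τ₁) R) - jj hI (a σ₁) R) := by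
      have e2 : jj hI (a σ₁) (pm (lh τ₁) R) = R + tt _ (h σ₁) := by
        rw [← h4]
        abel
      rw [e2, hR', jj_add, jj_nsmul, hjT3, smul_sub, nsmul_tt, hε]
      abel
    rw [e1]
    exact neg_mem h5
  have hmem2 : R' - im (isE _) hI R' ∈ E1 (isE (PadicAlgCl p)) := by
    rcases z3 (a σ₁) with h4 | h4 | h4
    · exact absurd h4 ha₁
    · rw [h4, jj_one] at hmem
      rw [← neg_sub]
      exact neg_mem hmem
    · rw [h4, jj_neg_one, im_im] at hmem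
      have h5 := im_mem _ hI hmem
      rw [map_sub, map_sub, map_neg, im_im] at h5
      have e1 : R' - im (isE _) hI R' =
          -im (isE (PadicAlgCl p)) hI R' - (-R' - im (isE _) hI R') - im (isE _) hI R' := by
        abel
      rw [e1]
      exact h5
  obtain ⟨R₁, hR₁, e₁⟩ := surj_E1 (isE (PadicAlgCl p)) h3 hI hmem2
  have hker : (R' - R₁) - im (isE (PadicAlgCl p)) hI (R' - R₁) = 0 := by
    rw [map_sub]
    have e2 : R' - R₁ - (im (isE (PadicAlgCl p)) hI R' - im (isE _) hI R₁) =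
        (R' - im (isE (PadicAlgCl p)) hI R') - (R₁ - im (isE _) hI R₁) := by abel
    rw [e2, e₁, sub_self]
  obtain ⟨c, hc⟩ := ker_tt hI hker
  have hR : R = R₁ + tt _ c - ε.val • T3 := by
    rw [← hc, hR']
    abel
  intro τ σ hcτ
  have hτI : τ (ι i₀) = ι i₀ := hcτ.fix
  have h4 := hS τ σ hcτ
  rw [hR, map_sub, map_add, pm_tt, map_nsmul, hlT3 τ hτI, jj_sub, jj_add, jj_tt, jj_nsmul, hjT3,
    smul_sub, nsmul_tt] at h4
  have h5 : jj hI (a σ) (pm (lh τ) R₁) - R₁ = tt _ (h σ - ε * a σ) := by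
    rw [tt_sub, ← h4]
    abel
  have h6 : jj hI (a σ) (pm (lh τ) R₁) - R₁ ∈ E1 (isE (PadicAlgCl p)) :=
    sub_mem (jj_mem hI _ (lh_mem hR₁)) hR₁
  rw [h5] at h6
  exact sub_eq_zero.1 (tt_mem h6)

end Pool.Agent.W2helper73.CC
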