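import Mathlib
import Pool.Agent.W2helper73.CC.Loc
import Pool.Agent.W2helper73.CC.Ram
import Pool.Agent.Y48.CT.SEL
import Pool.Agent.R395.CT.Light

/-!
# Project CC: the Selmer group of the cubic twist by `3 P`

Adapted from `Pool.Agent.Y48.CT.SEL`.
-/

set_option autoImplicit false
set_option linter.unusedSectionVars false

open scoped Classical

namespace Pool.Agent.W2helper73.CC

open Pool.Agent.Y692.QS (Ei w nr)
open Pool.Agent.Y715.T.Gi Pool.Agent.Y715.T.Nr Pool.Agent.Y715.T.Df Pool.Agent.Y715.T.Ell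
open Pool.Agent.Y715.T.Rec (cs)
open Pool.Agent.Y715.T.RecG
open Pool.Agent.Y715.T.Sel (fac kc_mul kc_one kc_congr kc_pow kc_cube kc_uniq kc_cancel kc_unit
  kc_exp ex_root root_ne iota_sq iota_ev odd_of not_dvd_of_unr resid_kc exists_emb3)
open Pool.Agent.Y703.CT
open Pool.Agent.Y48.CT.SEL (p0 pr0 esq not_dvd_prod prod_form cf_prod support not_assoc_lam not_lam)

variable {J : Type} [Fintype J] {π : J → Ei} {e : J → ZMod 3}
variable {i₀ : QB} {hi : i₀ ^ 2 + i₀ + 1 = 0}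

/-- the system for the twist by `3 P` has only the solution zero -/
def KerC {J : Type} [Fintype J] (π : J → Ei) (e : J → ZMod 3) : Prop :=
  ∀ v : J → ZMod 3, (∀ j, ∑ i, e i * cs (π j) (π i) * (v i - v j) - v j * cs (π j) 3 = 0) →
    ∀ j, v j = 0

/-- change of the class by a multiple of the class of the twist -/
lemma st1_shift {p : ℕ} [Fact p.Prime] {ι : QB →ₐ[ℚ] PadicAlgCl p} {a h : GK i₀ → ZMod 3}
    {R : Pt (PadicAlgCl p)} (hS : St1 hi ι a h R) (n : ZMod 3) :
    ∃ R', St1 hi ι a (fun σ => h σ - n * a σ) R' := by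
  have hI := iota_sq' hi ι
  obtain ⟨hn3, hT3⟩ := Pool.Agent.Y153.CTRAM.exists_T3 hI
  set T3 : Pt (PadicAlgCl p) := WeierstrassCurve.Affine.Point.some (-1) ((ι i₀) ^ 2) hn3 with hT3d
  have hjT3 : ∀ c : ZMod 3, jj hI c T3 = T3 - tt _ c := by
    intro c
    rcases z3 c with rfl | rfl | rfl
    · rw [Pool.Agent.Y153.CTRAM.jj_zero, tt_zero, sub_zero]
    · rw [Pool.Agent.Y153.CTRAM.jj_one, hT3]
    · rw [Pool.Agent.Y153.CTRAM.jj_neg_one, hT3, map_sub, im_tt, hT3, sub_sub, ← tt_add]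
      congr 2
  have hlT3 : ∀ τ : Au p, τ (ι i₀) = ι i₀ → pm (lh τ) T3 = T3 := by
    intro τ hτI
    rw [hT3d, pm_some, WeierstrassCurve.Affine.Point.some.injEq]
    rw [lh_apply, lh_apply]
    constructor
    · rw [map_neg, map_one]
    · rw [map_pow, hτI]
  refine ⟨R + n.val • T3, fun τ σ hc => ?_⟩
  rw [map_add, map_nsmul, hlT3 τ hc.fix, Pool.Agent.Y153.CTRAM.jj_add,
    Pool.Agent.Y153.CTRAM.jj_nsmul, hjT3, smul_sub, Pool.Agent.Y153.CTRAM.nsmul_tt, tt_sub,
    ← hS τ σ hc]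
  abel

/-- a character of the cube roots of a number -/
lemma exists_kc (hi : i₀ ^ 2 + i₀ + 1 = 0) {z : Ei} (hz : z ≠ 0) : ∃ c : GK i₀ → ZMod 3, Kc hi z c := by
  obtain ⟨u, a, hT⟩ := Pool.Agent.R395.CT.exists_tw hi hz
  exact ⟨fun σ => -a σ, kc_of hi (root_ne (hi := hi) hz hT.cube) hT.cube hT.act⟩

/-- the character of `3` is unramified outside three -/
lemma kc_three_unr {c : GK i₀ → ZMod 3} (hc : Kc hi 3 c) {p : ℕ} [Fact p.Prime] (hp : p ≠ 3)
    (ι : QB →ₐ[ℚ] PadicAlgCl p) {τ : Au p} {σ : GK i₀} (hcm : Cmp ι τ σ) (hτ : Inert τ) :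
    c σ = 0 := by
  obtain ⟨s, hs⟩ := ex_root (ev i₀ hi 3)
  have h1 : τ (ι s) = ι s := by
    refine Pool.Agent.Y715.T.Sel.fix_of_unit (iota_sq hi ι) hp (z := 3) ?_ ?_ hτ hcm.fix
    · rw [← map_pow, hs, iota_ev]
    · rw [norm_ev_three (iota_sq hi ι) hp]
      exact lt_irrefl _
  have h2 : σ s = s := by
    apply ι.injective
    show ι (σ s) = ι s
    rw [← hcm, h1]
  have h3 := hc s hs σ
  rw [h2] at h3
  have h30 : (3 : Ei) ≠ 0 := by decide
  have hs0 := root_ne (hi := hi) h30 hs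
  apply Pool.Agent.Y715.T.Sel.i₀_inj (hi := hi)
  rw [ZMod.val_zero, pow_zero]
  exact mul_right_cancel₀ hs0 (by rw [← h3, one_mul])

/-- **The Selmer group of the twist by `3 P`.** -/
theorem selC (hD : Dt π e) (hker : KerC π e) {u : QB} {a : GK i₀ → ZMod 3}
    (hTw : Tw hi (3 * pD π e) u a) : Sel1 hi a := by
  intro h hc hm hloc
  have h3D : (3 : Ei) * pD π e ≠ 0 := three_pD hD
  have h30 : (3 : Ei) ≠ 0 := by decide
  -- the character `a`
  have hb : Kc hi (3 * ∏ j, π j ^ (e j).val) (fun σ => -a σ) :=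
    kc_of hi (root_ne (hi := hi) (z := 3 * pD π e) h3D hTw.cube) hTw.cube hTw.act
  -- the Kummer generator
  obtain ⟨z, hz, hzh⟩ := kum hi h hc hm
  obtain ⟨v₀, g, x₀, hu, ez⟩ := fac (π := π) z hz.1 (support hD hz hzh
    (fun p _ ι hp3 hpj τ σ hcc hτ => by
      obtain ⟨R, hR⟩ := hloc p ι
      exact (unrC hD hTw h ι hp3 hpj R hR τ σ hcc hτ).2))
  rw [ez] at hzh
  have hz0 : v₀ * lam ^ g * ∏ j, π j ^ x₀ j ≠ 0 :=
    mul_ne_zero (mul_ne_zero hu.ne_zero (pow_ne_zero _ prime_lam.ne_zero)) (pr0 hD _)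
  -- the modified class
  set h' : GK i₀ → ZMod 3 := fun σ => h σ - (g : ZMod 3) * a σ with hh'
  have hloc' : ∀ (p : ℕ) [Fact p.Prime] (ι : QB →ₐ[ℚ] PadicAlgCl p), ∃ R, St1 hi ι a h' R := by
    intro p _ ι
    obtain ⟨R, hR⟩ := hloc p ι
    exact st1_shift hR (g : ZMod 3)
  obtain ⟨x, hxdef⟩ : ∃ x : J → ℕ, x = fun j => x₀ j + (e j).val * g := ⟨_, rfl⟩
  have hB0 := kc_congr (kc_mul hz0 (pow_ne_zero g h3D) hzh (kc_pow h3D hb g))
    (h' := h') (fun σ => by rw [hh']; ring)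
  have e3 : (3 : Ei) ^ g = (-1) ^ g * lam ^ (2 * g) := by
    have e4 : (3 : Ei) = (-1) * (lam * lam) := by rw [lam_two]; norm_num
    rw [e4, mul_pow, ← pow_two, ← pow_mul]
  have hB : Kc hi (((-1) ^ g * v₀) * lam ^ (3 * g) * ∏ j, π j ^ x j) h' := by
    have e5 : v₀ * lam ^ g * (∏ j, π j ^ x₀ j) * (3 * pD π e) ^ g =
        ((-1) ^ g * v₀) * lam ^ (3 * g) * ∏ j, π j ^ x j := by
      unfold pD
      rw [mul_pow, e3, ← Finset.prod_pow, hxdef]
      have e6 : ∏ j, π j ^ (x₀ j + (e j).val * g) =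
          (∏ j, π j ^ x₀ j) * ∏ j, (π j ^ (e j).val) ^ g := by
        rw [← Finset.prod_mul_distrib]
        refine Finset.prod_congr rfl fun i _ => ?_
        rw [← pow_mul, ← pow_add]
      rw [e6]
      ring
    rw [← e5]
    exact hB0
  obtain ⟨ι₃⟩ := exists_emb3
  obtain ⟨q, hq⟩ := prod_form hD x
  have hq' : ∏ j, π j ^ x j = 1 + 3 * q := by rw [← hq]; ring
  have hu' : IsUnit ((-1 : Ei) ^ g * v₀) := ((isUnit_one.neg).pow g).mul hu
  have hx : Kc hi (∏ j, π j ^ x j) h' := by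
    obtain ⟨R, hR⟩ := hloc' 3 ι₃
    have hB' := hB
    rw [hq'] at hB'
    have hu1 := core3C (prod_form hD _) hTw hu' (Dvd.intro g rfl) hB' hR
    refine kc_unit (pr0 hD _) hu1 (kc_cancel (z' := lam ^ g) ?_
      (pow_ne_zero _ prime_lam.ne_zero) ?_)
    · exact mul_ne_zero hu'.ne_zero (pr0 hD _)
    · have e1 : ((-1) ^ g * v₀) * (∏ j, π j ^ x j) * (lam ^ g) ^ 3 =
          ((-1) ^ g * v₀) * lam ^ (3 * g) * ∏ j, π j ^ x j := by
        rw [← pow_mul, mul_comm g 3]
        ring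
      rw [e1]
      exact hB
  set v : J → ZMod 3 := fun j => x j * e j with hv
  have hxv : ∀ j, (x j : ZMod 3) = e j * v j := by
    intro j
    have := esq hD j
    calc (x j : ZMod 3) = x j * (e j * e j) := by rw [this, mul_one]
      _ = _ := by rw [hv]; ring
  -- the character of `3`
  obtain ⟨c3, hc3⟩ := exists_kc hi h30
  have heq : ∀ j, ∑ i, e i * cs (π j) (π i) * (v i - v j) - v j * cs (π j) 3 = 0 := by
    intro j
    obtain ⟨p, hp, ι, hl⟩ := exists_emb hi (hD.pq j).prime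
    have hp3 := odd_of hi ι (hD.pq j).prime hl (not_assoc_lam (hD.pq j))
    obtain ⟨R, hR⟩ := hloc' p ι
    obtain ⟨ε, hε⟩ := ramC hD hTw h' j ι hl R hR
    -- the character that is trivial at `π j`
    set n : ℕ := ε.val with hn
    have hn3 : (n : ZMod 3) = ε := ZMod.natCast_zmod_val _
    have hy := kc_mul (pr0 hD x) (pow_ne_zero n h3D) hx (kc_pow h3D hb n)
    have hy1 : ∀ (τ : Au p) (σ : GK i₀), Cmp ι τ σ → h' σ + n * -a σ = 0 := by
      intro τ σ hcc
      rw [hε τ σ hcc, hn3]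
      ring
    set y : J → ZMod 3 := fun i => x i + e i * ε with hydef
    have ey : (∏ i, π i ^ x i) * (3 * pD π e) ^ n * 3 ^ (2 * n) =
        (∏ i, π i ^ (x i + (e i).val * n)) * (3 ^ n) ^ 3 := by
      unfold pD
      rw [mul_pow, ← Finset.prod_pow]
      have e6 : ∏ j, π j ^ (x j + (e j).val * n) =
          (∏ j, π j ^ x j) * ∏ j, (π j ^ (e j).val) ^ n := by
        rw [← Finset.prod_mul_distrib]
        refine Finset.prod_congr rfl fun i _ => ?_
        rw [← pow_mul, ← pow_add]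
      rw [e6]
      ring
    have hy3 := kc_mul (mul_ne_zero (pr0 hD x) (pow_ne_zero n h3D)) (pow_ne_zero (2 * n) h30) hy
      (kc_pow h30 hc3 (2 * n))
    rw [ey] at hy3
    have hy4 := kc_cancel (pr0 hD _) (pow_ne_zero n h30) hy3
    have hy2 : Kc hi (∏ i, π i ^ (y i).val)
        (fun σ => (h' σ + n * -a σ) + ((2 * n : ℕ) : ZMod 3) * c3 σ) := by
      refine kc_exp (p0 hD) (fun i => ?_) hy4
      rw [ZMod.natCast_zmod_val, hydef]
      push_cast
      rw [hn3, ZMod.natCast_zmod_val]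
    have hyj : y j = 0 := by
      have h1 := not_dvd_of_unr (cf_prod hD y) hy2 hp3 ι (hD.pq j).prime hl
        (fun τ σ hcc hτ => by
          rw [hy1 τ σ hcc, kc_three_unr hc3 hp3 ι hcc hτ, mul_zero, add_zero])
      by_contra hne
      apply h1
      refine dvd_trans (dvd_pow_self (π j) ?_) (Finset.dvd_prod_of_mem
        (fun i => π i ^ (y i).val) (Finset.mem_univ j))
      rwa [Ne, ZMod.val_eq_zero]
    have hεv : ε = -v j := by
      have h1 : (x j : ZMod 3) + e j * ε = 0 := hyj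
      have h2 := esq hD j
      rw [hxv j] at h1
      calc ε = (e j * e j) * ε := by rw [h2, one_mul]
        _ = e j * (e j * v j + e j * ε) - (e j * e j) * v j := by ring
        _ = _ := by rw [h1, h2]; ring
    have hyi : ∀ i, y i = e i * (v i - v j) := by
      intro i
      rw [hydef]
      change (x i : ZMod 3) + e i * ε = _
      rw [hxv i, hεv]
      ring
    have e2 : ∏ i, π i ^ (y i).val = ∏ i ∈ Finset.univ.erase j, π i ^ (y i).val := by
      rw [← Finset.mul_prod_erase Finset.univ (fun i => π i ^ (y i).val) (Finset.mem_univ j),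
        hyj, ZMod.val_zero, pow_zero, one_mul]
    -- multiply by the power of `3` again
    have hy5 := kc_congr (kc_mul (pow_ne_zero n h30) (pr0 hD _) (kc_pow h30 hc3 n) hy2)
      (h' := fun σ => h' σ + n * -a σ) (fun σ => by
        have h3 : (3 : ZMod 3) = 0 := by decide
        push_cast
        linear_combination (-(n : ZMod 3) * c3 σ) * h3)
    rw [e2] at hy5
    have hcube := resid_kc hy5 hp3 ι (hD.pq j).prime hl hy1
    have hnd := not_dvd_prod hD j (fun i => (y i).val)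
    have h9 := (hD.pq j).norm
    have hpj := (hD.pq j).prime
    have h3nd : ¬ π j ∣ (3 : Ei) := h9
    have h3ndn : ¬ π j ∣ (3 : Ei) ^ n := fun hd => h3nd (hpj.dvd_of_dvd_pow hd)
    have hcs := (cs_zero_iff hpj h9 (fun hd => by
      rcases hpj.dvd_or_dvd hd with hd | hd
      · exact h3ndn hd
      · exact hnd hd)).2 hcube
    have hnd1 : ∀ i ∈ Finset.univ.erase j, ¬ π j ∣ π i := fun i hij =>
      hD.nd i j (Finset.ne_of_mem_erase hij)
    rw [cs_mul hpj h9 h3ndn hnd, cs_pow hpj h9 h3nd,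
      cs_prod hpj h9 _ _ (fun i hij h1 => hnd1 i hij (hpj.dvd_of_dvd_pow h1)), hn3, hεv] at hcs
    rw [← Finset.add_sum_erase Finset.univ _ (Finset.mem_univ j), sub_self, mul_zero, zero_add]
    have e7 : ∑ i ∈ Finset.univ.erase j, e i * cs (π j) (π i) * (v i - v j) =
        ∑ i ∈ Finset.univ.erase j, cs (π j) (π i ^ (y i).val) := by
      refine Finset.sum_congr rfl fun i hij => ?_
      rw [cs_pow hpj h9 (hnd1 i hij), ZMod.natCast_zmod_val, hyi i]
      ring
    rw [e7]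
    linear_combination hcs
  have hconst := hker v heq
  -- conclusion
  refine ⟨(g : ZMod 3), fun σ => ?_⟩
  have h1 : Kc hi (∏ j, π j ^ 0) h' := by
    refine kc_exp (p0 hD) (fun j => ?_) hx
    rw [hxv j, hconst j, mul_zero, Nat.cast_zero]
  simp only [pow_zero, Finset.prod_const_one] at h1
  have h2 := kc_uniq one_ne_zero h1 kc_one σ
  rw [hh'] at h2
  exact sub_eq_zero.1 h2

end Pool.Agent.W2helper73.CC
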