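import Pool.Agent.Y405.CT.Cri
import Pool.Agent.Y350.CT.REC
import Pool.Agent.W2helper73.CC.Sel

/-!
# Project CC: the criterion over the integers implies the criterion over the Eisenstein integers

Adapted from `Pool.Agent.Y405.CT.Cri`; the number `3` plays the role of the prime `2` modulo `3`.
-/

set_option autoImplicit false
set_option linter.unusedSectionVars false

open scoped Classical

namespace Pool.Agent.W2helper73.CC

open Pool.Agent.Y703.CT
open Pool.Agent.Y405.CT
open Pool.Agent.Y692.QS (Ei w nr toC)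
open Pool.Agent.Y715.T.Rec (cs)
open Pool.Agent.Y715.T.RecG (Pq)
open Finset

section three

variable {J : Type} [Fintype J] {π : J → Ei} {e : J → ZMod 3} {M : ℕ}

theorem star_three : star (3 : Ei) = 3 := by decide

/-- the part of the product -/
def P3 (π : J → Ei) (e : J → ZMod 3) (v : Option J → ZMod 3) (c : ZMod 3) : Ei :=
  (if v none = c then 3 else 1) * ∏ i ∈ univ.filter (fun i => v (some i) = c), π i ^ (e i).val

theorem dvd_P3 (h : Dt π e) {v : Option J → ZMod 3} {c : ZMod 3} {ρ : Ei} (hρ : Prime ρ)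
    (hd : ρ ∣ P3 π e v c) :
    (ρ ∣ 3 ∧ v none = c) ∨ ∃ j, v (some j) = c ∧ ρ ∣ π j ∧ π j ∣ ρ := by
  unfold P3 at hd
  rcases hρ.dvd_or_dvd hd with h1 | h1
  · left
    split_ifs at h1 with h2
    · exact ⟨h1, h2⟩
    · exact absurd (isUnit_of_dvd_one h1) hρ.not_isUnit
  · right
    obtain ⟨j, hj, h2, h3⟩ := dvd_part h _ hρ h1
    exact ⟨j, (mem_filter.1 hj).2, h2, h3⟩

theorem cs_P3 (h : Dt π e) {v : Option J → ZMod 3} {j : J} {c : ZMod 3} (hc : v (some j) ≠ c) :
    ¬ π j ∣ P3 π e v c ∧ cs (π j) (P3 π e v c) =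
      (if v none = c then cs (π j) 3 else 0) +
        ∑ i, if v (some i) = c then e i * cs (π j) (π i) else 0 := by
  have hp := (h.pq j).prime
  have h9 := (h.pq j).norm
  obtain ⟨a1, a2⟩ := cs_part h (v := fun i => v (some i)) hc
  have h1 : ¬ π j ∣ (if v none = c then (3 : Ei) else 1) := by
    split_ifs
    · exact h9
    · exact fun h2 => hp.not_isUnit (isUnit_of_dvd_one h2)
  constructor
  · intro h2
    rcases hp.dvd_or_dvd h2 with h3 | h3
    · exact h1 h3
    · exact a1 h3
  · unfold P3
    rw [Pool.Agent.Y715.T.RecG.cs_mul hp h9 h1 a1, a2]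
    congr 1
    split_ifs with h2
    · rfl
    · have h3 : cs (π j) 1 = 0 := by
        have h4 := Pool.Agent.Y715.T.RecG.cs_pow hp h9 h9 0
        rw [pow_zero, Nat.cast_zero, zero_mul] at h4
        exact h4
      exact h3

theorem int_cube3 (n : ℤ) : ∃ x : ℤ, ((3 : ℕ) : ℤ) ∣ n - x ^ 3 := by
  refine ⟨n, (ZMod.intCast_zmod_eq_zero_iff_dvd _ 3).1 ?_⟩
  push_cast
  generalize (n : ZMod 3) = a
  revert a
  decide

theorem even_partC (hNS : NoSplit (3 * M)) (h : Dt π e)
    (hD : (M : Ei) = pD π e ∨ (M : Ei) = -pD π e) (v : Option J → ZMod 3)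
    (hv : ∀ j, ∑ i, e i * cs (π j) (π i) * (v (some i) - v (some j)) +
      cs (π j) 3 * (v none - v (some j)) = 0)
    (hve : ∀ i j, π i = star (π j) → v (some i) = v (some j)) : ∀ j, v (some j) = v none := by
  choose σ hσ using exists_sigma h hD
  have hσσ : ∀ j, σ (σ j) = j := fun j => pi_inj h (by rw [hσ, hσ, star_star])
  have hes : ∀ j, e (σ j) = e j := fun j => e_sigma h hD (hσ j)
  have hvs : ∀ j, v (some (σ j)) = v (some j) := fun j => hve _ _ (hσ j)
  let P : ZMod 3 → Ei := P3 π e v
  have hPs : ∀ c, star (P c) = P c := by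
    intro c
    have h1 : star (∏ i ∈ univ.filter (fun i => v (some i) = c), π i ^ (e i).val) =
        ∏ i ∈ univ.filter (fun i => v (some i) = c), star (π i ^ (e i).val) := by
      have := map_prod (starRingEnd Ei) (fun i => π i ^ (e i).val)
        (univ.filter (fun i => v (some i) = c))
      exact this
    have h2 : star (if v none = c then (3 : Ei) else 1) = if v none = c then (3 : Ei) else 1 := by
      split_ifs
      · exact star_three
      · exact star_one _
    show star (P3 π e v c) = P3 π e v c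
    unfold P3
    rw [star_mul', h1, h2]
    congr 1
    refine Finset.prod_nbij' σ σ ?_ ?_ (fun i _ => hσσ i) (fun i _ => hσσ i) ?_
    · intro i hi
      simp only [mem_filter, mem_univ, true_and] at hi ⊢
      rw [hvs, hi]
    · intro i hi
      simp only [mem_filter, mem_univ, true_and] at hi ⊢
      rw [hvs, hi]
    · intro i _
      rw [hes, hσ, star_pow]
  obtain ⟨n, hn⟩ : ∃ n : ZMod 3 → ℤ, ∀ c, P c = ((n c : ℤ) : Ei) :=
    ⟨fun c => (P c).re, fun c => real_of_star (hPs c)⟩
  have hprod : ∏ c, P c = 3 * pD π e := by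
    show ∏ c, P3 π e v c = 3 * pD π e
    unfold P3
    rw [Finset.prod_mul_distrib]
    congr 1
    · rw [Finset.prod_ite_eq]
      simp
    · exact Finset.prod_fiberwise univ (fun i => v (some i)) (fun i => π i ^ (e i).val)
  have hprodn : (∏ c, n c) = ((3 * M : ℕ) : ℤ) ∨ (∏ c, n c) = -((3 * M : ℕ) : ℤ) := by
    have h1 : (((∏ c, n c : ℤ)) : Ei) = 3 * pD π e := by
      rw [← hprod]
      push_cast
      exact Finset.prod_congr rfl fun c _ => (hn c).symm
    rcases hD with h2 | h2
    · left
      have h3 : ((∏ c, n c : ℤ) : Ei) = (((3 * M : ℕ) : ℤ) : Ei) := by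
        rw [h1, ← h2]
        push_cast
        rfl
      have := congrArg QuadraticAlgebra.re h3
      rwa [QuadraticAlgebra.re_intCast, QuadraticAlgebra.re_intCast] at this
    · right
      have h3 : ((∏ c, n c : ℤ) : Ei) = ((-((3 * M : ℕ) : ℤ) : ℤ) : Ei) := by
        rw [h1]
        push_cast
        rw [h2]
        ring
      have := congrArg QuadraticAlgebra.re h3
      rwa [QuadraticAlgebra.re_intCast, QuadraticAlgebra.re_intCast] at this
  let d : ZMod 3 → ℕ := fun c => (n c).natAbs
  have hdP : ∀ (c : ZMod 3) (p : ℕ), p ∣ d c → ((p : ℕ) : Ei) ∣ P c := by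
    intro c p hp
    rw [hn c, nat_int]
    exact Pool.Agent.Y692.QS.int_dvd_int.2 (Int.natCast_dvd.2 hp)
  have hdprod : ∏ c, d c = 3 * M := by
    have h1 : ∏ c, d c = (∏ c, n c).natAbs := (map_prod Int.natAbsHom n univ).symm
    rw [h1]
    rcases hprodn with h2 | h2
    · rw [h2, Int.natAbs_natCast]
    · rw [h2, Int.natAbs_neg, Int.natAbs_natCast]
  have hcop : ∀ c c', c ≠ c' → Nat.Coprime (d c) (d c') := by
    intro c c' hcc
    by_contra hnc
    obtain ⟨p, hp, h1, h2⟩ := Nat.Prime.not_coprime_iff_dvd.1 hnc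
    obtain ⟨ρ, hρ, hρp⟩ := exists_prime_dvd hp
    rcases dvd_P3 h hρ (hρp.trans (hdP c p h1)) with ⟨h3, h4⟩ | ⟨j, hj, h3, h4⟩
    · rcases dvd_P3 h hρ (hρp.trans (hdP c' p h2)) with ⟨h3', h4'⟩ | ⟨j', hj', h3', h4'⟩
      · exact hcc (by rw [← h4, ← h4'])
      · exact (h.pq j').norm (h4'.trans h3)
    · rcases dvd_P3 h hρ (hρp.trans (hdP c' p h2)) with ⟨h3', h4'⟩ | ⟨j', hj', h3', h4'⟩
      · exact (h.pq j).norm (h4.trans h3')
      · have h5 : j = j' := by
          by_contra hne
          exact h.nd j j' hne (h4'.trans h3)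
        apply hcc
        rw [← hj, ← hj', h5]
  have hloc : ∀ (c : ZMod 3) (p : ℕ), p.Prime → p ∣ d c →
      ∃ x : ℤ, (p : ℤ) ∣ (d (c + 1) : ℤ) * (d (c + 2) : ℤ) ^ 2 - x ^ 3 := by
    intro c p hp hpd
    by_cases hp3 : p = 3
    · rw [hp3]
      exact int_cube3 _
    obtain ⟨ρ, hρ, hρp⟩ := exists_prime_dvd hp
    rcases dvd_P3 h hρ (hρp.trans (hdP c p hpd)) with ⟨h3, -⟩ | ⟨j, hj, h3, h4⟩
    · exfalso
      have h5 : IsCoprime ((p : ℕ) : Ei) (3 : Ei) := by
        have h6 : Nat.Coprime p 3 := (Nat.coprime_primes hp Nat.prime_three).2 hp3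
        have h7 : IsCoprime (p : ℤ) (3 : ℤ) := by exact_mod_cast Nat.isCoprime_iff_coprime.2 h6
        have h8 := h7.map (Int.castRingHom Ei)
        simpa using h8
      exact hρ.not_isUnit (h5.isUnit_of_dvd' hρp h3)
    obtain ⟨l, hl, hdl, hn3, hz⟩ := below (h.pq j)
    have hlp : l = p := prime_below hp hl (h4.trans hρp) hz
    subst hlp
    rcases hn3 with ⟨h5, h6⟩ | ⟨h5, h6⟩
    · have hprime := (h.pq j).prime
      have h9 := (h.pq j).norm
      have hc1 : v (some j) ≠ c + 1 := by
        rw [hj]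
        exact (by decide : ∀ c : ZMod 3, c ≠ c + 1) c
      have hc2 : v (some j) ≠ c + 2 := by
        rw [hj]
        exact (by decide : ∀ c : ZMod 3, c ≠ c + 2) c
      obtain ⟨a1, a2⟩ := cs_P3 h hc1
      obtain ⟨b1, b2⟩ := cs_P3 h hc2
      have b1' : ¬ π j ∣ P (c + 2) ^ 2 := fun h => b1 (hprime.dvd_of_dvd_pow h)
      have h7 : cs (π j) (P (c + 1) * P (c + 2) ^ 2) = 0 := by
        rw [Pool.Agent.Y715.T.RecG.cs_mul hprime h9 a1 b1',
          Pool.Agent.Y715.T.RecG.cs_pow hprime h9 b1]
        have a2' : cs (π j) (P (c + 1)) = (if v none = c + 1 then cs (π j) 3 else 0) +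
          ∑ i, if v (some i) = c + 1 then e i * cs (π j) (π i) else 0 := a2
        have b2' : cs (π j) (P (c + 2)) = (if v none = c + 2 then cs (π j) 3 else 0) +
          ∑ i, if v (some i) = c + 2 then e i * cs (π j) (π i) else 0 := b2
        have key : ∀ (x c t : ZMod 3), ((if x = c + 1 then t else 0) + ((2 : ℕ) : ZMod 3) *
            (if x = c + 2 then t else 0)) = t * (x - c) := by decide
        have e1 : ∑ i, e i * cs (π j) (π i) * (v (some i) - v (some j)) =
            (∑ i, if v (some i) = c + 1 then e i * cs (π j) (π i) else 0) +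
            ((2 : ℕ) : ZMod 3) * ∑ i, if v (some i) = c + 2 then e i * cs (π j) (π i) else 0 := by
          rw [mul_sum, ← sum_add_distrib]
          refine sum_congr rfl fun i _ => ?_
          rw [hj]
          exact (key (v (some i)) c (e i * cs (π j) (π i))).symm
        have e2 : cs (π j) 3 * (v none - v (some j)) =
            (if v none = c + 1 then cs (π j) 3 else 0) +
            ((2 : ℕ) : ZMod 3) * (if v none = c + 2 then cs (π j) 3 else 0) := by
          rw [hj]
          exact (key (v none) c (cs (π j) 3)).symm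
        have h0 := hv j
        rw [e1, e2] at h0
        rw [a2', b2']
        linear_combination h0
      have hnd12 : ¬ π j ∣ P (c + 1) * P (c + 2) ^ 2 := fun h => by
        rcases hprime.dvd_or_dvd h with h | h
        · exact a1 h
        · exact b1' h
      obtain ⟨y, hy⟩ := (Pool.Agent.Y715.T.RecG.cs_zero_iff hprime h9 hnd12).1 h7
      have h8 : π j ∣ ((n (c + 1) * n (c + 2) ^ 2 : ℤ) : Ei) - y ^ 3 := by
        push_cast
        rw [← hn, ← hn]
        exact hy
      obtain ⟨x, hx⟩ := cube_one hl hdl h6 hz h8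
      have e2 : ((d (c + 2) : ℕ) : ℤ) ^ 2 = n (c + 2) ^ 2 := Int.natAbs_sq _
      rw [e2]
      rcases Int.natAbs_eq (n (c + 1)) with h10 | h10
      · refine ⟨x, ?_⟩
        have e1 : ((d (c + 1) : ℕ) : ℤ) = n (c + 1) := h10.symm
        rw [e1]
        exact hx
      · refine ⟨-x, ?_⟩
        have e1 : ((d (c + 1) : ℕ) : ℤ) = -n (c + 1) := by
          show (((n (c + 1)).natAbs : ℕ) : ℤ) = _
          omega
        rw [e1]
        have e3 : -n (c + 1) * n (c + 2) ^ 2 - (-x) ^ 3 = -(n (c + 1) * n (c + 2) ^ 2 - x ^ 3) := by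
          ring
        rw [e3]
        exact hx.neg_right
    · exact cube_two hl h5 _
  obtain ⟨c0, hc0⟩ := hNS d hdprod hcop hloc
  have hunit : ∀ c, c ≠ c0 → IsUnit (P c) := by
    intro c hc
    rw [hn]
    have h4 : IsUnit (n c) := Int.isUnit_iff_natAbs_eq.2 (hc0 c hc)
    exact h4.map (Int.castRingHom Ei)
  have hnone : v none = c0 := by
    by_contra hne
    have h3 := hunit (v none) hne
    have h4 : (3 : Ei) ∣ P (v none) := by
      show (3 : Ei) ∣ P3 π e v (v none)
      unfold P3
      rw [if_pos rfl]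
      exact Dvd.intro _ rfl
    have h5 : ¬ IsUnit (3 : Ei) := by
      rw [Pool.Agent.Y692.QS.isUnit_iff]
      decide
    exact h5 (isUnit_of_dvd_unit h4 h3)
  intro i
  rw [hnone]
  by_contra hne
  have h2 : π i ∣ P (v (some i)) :=
    (pi_dvd_part h (univ.filter fun k => v (some k) = v (some i))
      (mem_filter.2 ⟨mem_univ _, rfl⟩)).trans (dvd_mul_left _ _)
  exact (h.pq i).prime.not_isUnit (isUnit_of_dvd_unit h2 (hunit _ hne))

/-- no fixed point of the conjugation -/
theorem not_fixed (hM : ∀ p : ℕ, p.Prime → p ∣ M → p % 3 = 1) (h : Dt π e)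
    (hD : (M : Ei) = pD π e ∨ (M : Ei) = -pD π e) (j : J) : star (π j) ≠ π j := by
  intro hj
  have hr := real_of_star hj
  obtain ⟨p, hp, hdp, hn3', hz'⟩ := below (h.pq j)
  have hpD : p ∣ M := by
    have h5 : π j ∣ (M : Ei) := (dvd_D_iff hD _).2 (pi_dvd_part h univ (mem_univ j))
    rw [nat_int, hz'] at h5
    exact_mod_cast h5
  have hp1 := hM p hp hpD
  set n : ℤ := (π j).re with hn
  have hnn : nr (π j) = n ^ 2 := by
    rw [hr, Pool.Agent.Y692.QS.nr_int]
  rcases hn3' with ⟨h5, h6⟩ | ⟨h5, -⟩
  · rw [hnn] at h6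
    have hpp : Prime (p : ℤ) := Nat.prime_iff_prime_int.1 hp
    have h7 : (p : ℤ) ∣ n := hpp.dvd_of_dvd_pow (by rw [h6])
    obtain ⟨k, hk⟩ := h7
    rw [hk] at h6
    have hp0 : (p : ℤ) ≠ 0 := by exact_mod_cast hp.ne_zero
    have h8 : (p : ℤ) * k ^ 2 = 1 := by
      apply mul_left_cancel₀ hp0
      linear_combination h6
    have h9 : (p : ℤ) ∣ 1 := ⟨_, h8.symm⟩
    have h10 := Int.le_of_dvd one_pos h9
    have := hp.one_lt
    omega
  · omega

/-- the sum of the Laplacian vanishes -/
theorem sum_Lp {K : Type} [Fintype K] {m : K → K → ZMod 3} (hs : ∀ i j, m i j = m j i)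
    (v : K → ZMod 3) : ∑ j, Lp m v j = 0 := by
  have h1 : ∑ j, Lp m v j = -∑ j, Lp m v j := by
    unfold Lp
    rw [← sum_neg_distrib]
    rw [Finset.sum_comm]
    refine sum_congr rfl fun i _ => ?_
    rw [← sum_neg_distrib]
    refine sum_congr rfl fun j _ => ?_
    rw [hs j i]
    ring
  generalize ∑ j, Lp m v j = s at h1
  revert h1
  revert s
  decide

/-- **The criterion.** -/
theorem criC (hM : ∀ p : ℕ, p.Prime → p ∣ M → p % 3 = 1) (hNS : NoSplit (3 * M)) (h : Dt π e)
    (hD : (M : Ei) = pD π e ∨ (M : Ei) = -pD π e) : KerC π e := by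
  intro v hv
  have hR := Pool.Agent.Y350.CT.rec
  choose σ hσ using exists_sigma h hD
  have hσσ : ∀ j, σ (σ j) = j := fun j => pi_inj h (by rw [hσ, hσ, star_star])
  have hes : ∀ j, e (σ j) = e j := fun j => e_sigma h hD (hσ j)
  have hσn : ∀ j, σ j ≠ j := fun j hj => not_fixed hM h hD j (by rw [← hσ, hj])
  let m : Option J → Option J → ZMod 3 := fun i j =>
    match i, j with
    | none, none => 0
    | none, some j => e j * cs (π j) 3
    | some i, none => e i * cs (π i) 3
    | some i, some j => if i = j then 0 else e i * e j * cs (π i) (π j)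
  let s : Option J → Option J := Option.map σ
  have hms : ∀ i j, m i j = m j i := by
    intro i j
    rcases i with _ | i <;> rcases j with _ | j
    · rfl
    · rfl
    · rfl
    · show (if i = j then 0 else e i * e j * cs (π i) (π j)) =
        if j = i then 0 else e j * e i * cs (π j) (π i)
      by_cases hij : i = j
      · subst hij
        rfl
      · rw [if_neg hij, if_neg (fun h' => hij h'.symm),
          hR (π j) (π i) (h.pq j) (h.pq i) (h.nd j i (fun h' => hij h'.symm))]
        ring
  have hL : ∀ (x : Option J → ZMod 3) (j : J), Lp m x (some j) =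
      e j * (∑ i, e i * cs (π j) (π i) * (x (some i) - x (some j)) +
        cs (π j) 3 * (x none - x (some j))) := by
    intro x j
    unfold Lp
    rw [Fintype.sum_option]
    show e j * cs (π j) 3 * (x none - x (some j)) + ∑ i, (if j = i then 0 else
      e j * e i * cs (π j) (π i)) * (x (some i) - x (some j)) = _
    rw [mul_add, mul_sum, add_comm]
    congr 1
    · refine sum_congr rfl fun i _ => ?_
      by_cases hij : j = i
      · subst hij
        rw [if_pos rfl, sub_self, mul_zero, mul_zero, mul_zero]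
      · rw [if_neg hij]
        ring
    · ring
  -- the extension of `v` by zero
  let v' : Option J → ZMod 3 := fun i => i.elim 0 v
  have hv1 : ∀ j, Lp m v' (some j) = 0 := by
    intro j
    rw [hL]
    have h1 := hv j
    have h2 : ∑ i, e i * cs (π j) (π i) * (v' (some i) - v' (some j)) +
        cs (π j) 3 * (v' none - v' (some j)) =
        ∑ i, e i * cs (π j) (π i) * (v i - v j) - v j * cs (π j) 3 := by
      show ∑ i, e i * cs (π j) (π i) * (v i - v j) + cs (π j) 3 * (0 - v j) = _
      ring
    rw [h2, h1, mul_zero]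
  have hv2 : ∀ j, Lp m v' j = 0 := by
    intro j
    rcases j with _ | j
    · have h1 := sum_Lp hms v'
      rw [Fintype.sum_option, Finset.sum_eq_zero (fun j _ => hv1 j), add_zero] at h1
      exact h1
    · exact hv1 j
  have hconst := lin_main (m := m) (σ := s) (q := none) ?_ ?_ hms ?_ ?_ v' hv2
  · intro j
    exact hconst (some j) none
  · rintro (_ | j)
    · rfl
    · show some (σ (σ j)) = some j
      rw [hσσ]
  · rintro (_ | j)
    · exact ⟨fun _ => rfl, fun _ => rfl⟩
    · constructor
      · intro h1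
        exact absurd (Option.some_inj.1 h1) (hσn j)
      · intro h1
        exact absurd h1 (Option.some_ne_none j)
  · rintro (_ | i) (_ | j)
    · show (0 : ZMod 3) = -0
      rw [neg_zero]
    · show e (σ j) * cs (π (σ j)) 3 = -(e j * cs (π j) 3)
      have h1 := cs_starG (h.pq j) (h.pq j).norm
      rw [star_three] at h1
      rw [hes, hσ, h1]
      ring
    · show e (σ i) * cs (π (σ i)) 3 = -(e i * cs (π i) 3)
      have h1 := cs_starG (h.pq i) (h.pq i).norm
      rw [star_three] at h1
      rw [hes, hσ, h1]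
      ring
    · show (if σ i = σ j then 0 else e (σ i) * e (σ j) * cs (π (σ i)) (π (σ j))) =
        - if i = j then 0 else e i * e j * cs (π i) (π j)
      by_cases hij : i = j
      · subst hij
        simp
      · have hij' : σ i ≠ σ j := fun h' => hij (by rw [← hσσ i, h', hσσ])
        rw [if_neg hij, if_neg hij', hes, hes, hσ, hσ,
          cs_starG (h.pq i) (h.nd j i (fun h' => hij h'.symm))]
        ring
  · intro x hx hLx
    have h1 := even_partC hNS h hD x (fun j => by
      have h2 := hLx (some j)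
      rw [hL, mul_eq_zero] at h2
      exact h2.resolve_left (h.e0 j)) (fun i j hij => by
        have h3 : i = σ j := pi_inj h (by rw [hij, hσ])
        rw [h3]
        exact hx (some j))
    have h2 : ∀ j, x j = x none := by
      rintro (_ | j)
      · rfl
      · exact h1 j
    intro i j
    rw [h2 i, h2 j]

end three

end Pool.Agent.W2helper73.CC
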