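import Pool.Agent.W2helper73.CC.Ns
import Pool.Agent.W2helper41.Z.Cnt

/-!
# Project CC: the law for the sets of `k` primes
-/

set_option autoImplicit false
set_option linter.unusedSectionVars false
set_option linter.unusedVariables false

open scoped Classical

namespace Pool.Agent.W2helper73.CC

open Finset Filter Topology
open Pool.Agent.Y703.CX (sm la jj XX lam)
open Pool.Agent.Y759.CX (pm pm_nonneg pm_le_one)
open Pool.Agent.V11291.FK
open Pool.Agent.W2helper41.Z (PS mem_PS cut_count coll_count)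

/-- the primes congruent to `1` modulo `3` with the property `A` -/
def Bd (A : ℕ → Prop) (p : ℕ) : Prop := A p ∧ p.Prime ∧ p % 3 = 1

theorem bd_prime {A : ℕ → Prop} : ∀ p, Bd A p → p.Prime := fun _ h => h.2.1

/-- `3` is not a cube modulo one of the primes -/
def Wc (S : Finset ℕ) : Prop := ∃ p ∈ S, lam p 3 ≠ 0

/-- all primes are of the same kind -/
def c0 (_ : ℕ) : ℕ := 0

/-- all primes are of the same kind -/
def t0 (ι : Type) : ι → ℕ := fun _ => 0

section law

variable {ι : Type} [Fintype ι] [LinearOrder ι]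

/-- the logarithms of `3` are prescribed -/
def PR (A : ℕ → Prop) (β : ι → ZMod 3) (i : ι) (p : ℕ) : Prop :=
  PG (Bd A) c0 (t0 ι) i p ∧ lam p 3 = β i

theorem wc_iff {p : ι → ℕ} {β : ι → ZMod 3} (h : (fun i => lam (p i) 3) = β) :
    Wc (univ.image p) ↔ ∃ i, β i ≠ 0 := by
  unfold Wc
  constructor
  · rintro ⟨q, hq, h1⟩
    rw [mem_image] at hq
    obtain ⟨i, -, rfl⟩ := hq
    exact ⟨i, by rw [← h]; exact h1⟩
  · rintro ⟨i, hi⟩
    refine ⟨p i, mem_image_of_mem _ (mem_univ i), ?_⟩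
    rw [← h] at hi
    exact hi

/-- the part with given logarithms -/
theorem part_eq {A : ℕ → Prop} {β : ι → ZMod 3} {X : ℕ} (hβ : ∃ i, β i ≠ 0) (T : (ι → ℕ) → Prop)
    [DecidablePred T] :
    ((TW (Bd A) c0 (t0 ι) Wc X).filter fun p => (fun i => lam (p i) 3) = β ∧ T p) =
      (Tup (PR A β) X).filter T := by
  ext p
  rw [mem_filter, mem_filter, mem_TW bd_prime, mem_Tup fun i q h => bd_prime _ h.1.1]
  constructor
  · rintro ⟨⟨⟨h1, h2, h3⟩, h4⟩, h5, h6⟩
    exact ⟨⟨fun i => ⟨h1 i, congrFun h5 i⟩, h2, h3⟩, h6⟩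
  · rintro ⟨⟨h1, h2, h3⟩, h6⟩
    have h5 : (fun i => lam (p i) 3) = β := funext fun i => (h1 i).2
    exact ⟨⟨⟨fun i => (h1 i).1, h2, h3⟩, (wc_iff h5).2 hβ⟩, h5, h6⟩

theorem part_empty {A : ℕ → Prop} {β : ι → ZMod 3} {X : ℕ} (hβ : ¬ ∃ i, β i ≠ 0)
    (T : (ι → ℕ) → Prop) [DecidablePred T] :
    ((TW (Bd A) c0 (t0 ι) Wc X).filter fun p => (fun i => lam (p i) 3) = β ∧ T p) = ∅ := by
  refine Finset.filter_eq_empty_iff.2 fun p hp h => ?_
  rw [mem_TW bd_prime] at hp
  exact hβ ((wc_iff h.1).1 hp.2)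

/-- the hypothesis on the boxes holds -/
theorem boxH (A : ℕ → Prop) (ks : ι) :
    BoxH (TW (Bd A) c0 (t0 ι) Wc) (fun p => G3 (univ.image p)) (pm (Fintype.card ι - 1)) := by
  obtain ⟨C, hC, hbox⟩ := sum_boxes3 ks
  refine ⟨3 ^ Fintype.card ι * 3 ^ (Fintype.card ι ^ 2), C, by positivity, hC, ?_⟩
  intro X z H N κ hH hz hκ hκz hN
  have hfib : ∀ T : (ι → ℕ) → Prop,
      (((TW (Bd A) c0 (t0 ι) Wc X).filter fun p => ¬ Exc X z H p ∧ T p).card : ℝ) =
      ∑ β : ι → ZMod 3, (((TW (Bd A) c0 (t0 ι) Wc X).filter fun p =>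
        (fun i => lam (p i) 3) = β ∧ (¬ Exc X z H p ∧ T p)).card : ℝ) := by
    intro T
    rw [Finset.card_eq_sum_card_fiberwise (f := fun (p : ι → ℕ) (i : ι) => lam (p i) 3)
      (t := (univ : Finset (ι → ZMod 3))) (fun p hp => mem_coe.2 (mem_univ _))]
    push_cast
    refine Finset.sum_congr rfl fun b _ => ?_
    congr 2
    ext p
    simp only [mem_filter]
    tauto
  have hf1 := hfib fun p => G3 (univ.image p)
  have hf2 := hfib fun _ => True
  simp only [and_true] at hf2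
  rw [hf1, hf2, Finset.mul_sum, ← Finset.sum_sub_distrib]
  refine (Finset.abs_sum_le_sum_abs _ _).trans ?_
  have hE0 : (0 : ℝ) ≤ (N : ℝ) ^ Fintype.card ι * (3 ^ (Fintype.card ι ^ 2) * (κ * X)) := by
    positivity
  have hpart : ∀ β ∈ (univ : Finset (ι → ZMod 3)),
      |(((TW (Bd A) c0 (t0 ι) Wc X).filter fun p =>
        (fun i => lam (p i) 3) = β ∧ (¬ Exc X z H p ∧ G3 (univ.image p))).card : ℝ) -
      pm (Fintype.card ι - 1) * (((TW (Bd A) c0 (t0 ι) Wc X).filter fun p =>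
        (fun i => lam (p i) 3) = β ∧ ¬ Exc X z H p).card : ℝ)| ≤
      (N : ℝ) ^ Fintype.card ι * (3 ^ (Fintype.card ι ^ 2) * (κ * X)) := by
    intro β _
    by_cases hβ : ∃ i, β i ≠ 0
    · rw [part_eq hβ fun p => ¬ Exc X z H p ∧ G3 (univ.image p),
        part_eq hβ fun p => ¬ Exc X z H p]
      exact hbox (PR A β) β X z H N κ
        (fun i p h => ⟨bd_prime _ h.1.1, h.1.1.2.2, h.2⟩) hβ hH hz hκ hκz hN
    · rw [part_empty hβ fun p => ¬ Exc X z H p ∧ G3 (univ.image p),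
        part_empty hβ fun p => ¬ Exc X z H p]
      simp only [Finset.card_empty, Nat.cast_zero, mul_zero, sub_zero, abs_zero]
      exact hE0
  refine (Finset.sum_le_sum hpart).trans ?_
  rw [Finset.sum_const, nsmul_eq_mul, Finset.card_univ, Fintype.card_fun, ZMod.card]
  push_cast
  refine le_of_eq ?_
  ring

/-- the hypothesis on the exceptional tuples holds -/
theorem excH (A : ℕ → Prop) {j : ℕ} (hj : Fintype.card ι = j + 1) :
    ExcH (TW (Bd A) c0 (t0 ι) Wc) j := by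
  refine exc_abs hj PS (fun X p hp => ?_)
    (fun X z H hX hH => cut_count hH)
    (fun X z H hX hH => coll_count hH)
  rw [mem_TW bd_prime] at hp
  obtain ⟨⟨h3, h4, h5⟩, -⟩ := hp
  refine ⟨fun i => bd_prime _ (h3 i).1, h4, h5, ?_⟩
  rw [mem_PS]
  refine ⟨fun q hq => ?_, ?_⟩
  · rw [mem_image] at hq
    obtain ⟨i, -, rfl⟩ := hq
    exact bd_prime _ (h3 i).1
  · rw [Finset.prod_image fun a _ b _ h => h4 h]
    exact h5

theorem dn_mono {P Q : ℕ → Prop} (hPQ : ∀ p, P p → Q p) (h : Dn P) : Dn Q := by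
  obtain ⟨δ, Y₀, hδ, h⟩ := h
  refine ⟨δ, Y₀, hδ, fun Y hY => (h Y hY).trans ?_⟩
  exact_mod_cast Finset.card_le_card (Finset.monotone_filter_right _ fun p _ hp => hPQ p hp)

/-- the condition on the set of the primes: `3` is not a cube modulo a positive proportion -/
def Rich (A : ℕ → Prop) : Prop := Dn fun p => Bd A p ∧ lam p 3 ≠ 0

/-- the hypothesis on the size holds -/
theorem lowH {A : ℕ → Prop} (i₀ : ι) (hD : Rich A) : LowH (TW (Bd A) c0 (t0 ι) Wc) := by
  obtain ⟨c, X₀, hc, h⟩ := low (P := fun (i : ι) p => Bd A p ∧ lam p 3 ≠ 0)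
    (fun i p h => bd_prime _ h.1) (fun _ => hD) i₀
  refine ⟨c, X₀, hc, fun X hX => (h X hX).trans ?_⟩
  have : Tup (fun (i : ι) p => Bd A p ∧ lam p 3 ≠ 0) X ⊆ TW (Bd A) c0 (t0 ι) Wc X := by
    intro p hp
    rw [mem_Tup fun i q h => bd_prime _ h.1] at hp
    rw [mem_TW bd_prime]
    refine ⟨⟨fun i => ⟨(hp.1 i).1, rfl⟩, hp.2⟩, ?_⟩
    exact ⟨p i₀, mem_image_of_mem _ (mem_univ _), (hp.1 i₀).2⟩
  exact_mod_cast Finset.card_le_card this

/-- **The law for the sets.** -/
theorem set_law {A : ℕ → Prop} {j : ℕ} (hj : Fintype.card ι = j + 2) (i₀ : ι) (hD : Rich A) :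
    Tendsto (fun X : ℕ => (((FW (Bd A) c0 (t0 ι) Wc X).filter G3).card : ℝ) /
      ((FW (Bd A) c0 (t0 ι) Wc X).card : ℝ)) atTop
      (𝓝 (pm (Fintype.card ι - 1))) :=
  set_lawG bd_prime Wc hj (pm_nonneg _) (pm_le_one _) (boxH A i₀) (excH A (by omega)) (lowH i₀ hD)

end law

/-! ### the numbers -/

theorem card_bij (X : ℕ) (P : ℕ → Prop) (Q : Finset ℕ → Prop)
    (hPQ : ∀ D, Squarefree D → (P D ↔ Q D.primeFactors)) :
    ((Icc 1 X).filter fun D => Squarefree D ∧ P D).card = ((PS X).filter Q).card := by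
  refine Finset.card_bij (fun D _ => D.primeFactors) ?_ ?_ ?_
  · intro D hD
    obtain ⟨h1, h2, h4⟩ := Finset.mem_filter.1 hD
    obtain ⟨h5, h6⟩ := Finset.mem_Icc.1 h1
    refine Finset.mem_filter.2 ⟨mem_PS.2 ⟨fun p hp => Nat.prime_of_mem_primeFactors hp, ?_⟩,
      (hPQ D h2).1 h4⟩
    rw [Nat.prod_primeFactors_of_squarefree h2]
    exact h6
  · intro D hD E hE h
    have h2 := (Finset.mem_filter.1 hD).2.1
    have h3 := (Finset.mem_filter.1 hE).2.1
    have h' : D.primeFactors = E.primeFactors := h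
    rw [← Nat.prod_primeFactors_of_squarefree h2, ← Nat.prod_primeFactors_of_squarefree h3, h']
  · intro S hS
    obtain ⟨h1, h2⟩ := Finset.mem_filter.1 hS
    obtain ⟨hpr, h5⟩ := mem_PS.1 h1
    have hpf : (∏ p ∈ S, p).primeFactors = S := Nat.primeFactors_prod hpr
    have hsq : Squarefree (∏ p ∈ S, p) := by
      refine Finset.squarefree_prod_of_pairwise_isCoprime (fun p hp q hq hpq => ?_)
        fun p hp => (hpr p hp).squarefree
      show IsRelPrime p q
      rw [← Nat.coprime_iff_isRelPrime]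
      exact (Nat.coprime_primes (hpr p hp) (hpr q hq)).mpr hpq
    refine ⟨∏ p ∈ S, p, ?_, hpf⟩
    refine Finset.mem_filter.2 ⟨Finset.mem_Icc.2 ⟨?_, h5⟩, hsq, ?_⟩
    · exact Nat.one_le_iff_ne_zero.2 hsq.ne_zero
    · rw [hPQ _ hsq, hpf]
      exact h2

/-- the conditions on the numbers -/
def Cn (A : ℕ → Prop) (k N : ℕ) : Prop :=
  (∀ p ∈ N.primeFactors, Bd A p) ∧ N.primeFactors.card = k ∧ Wc N.primeFactors

/-- the family of the numbers -/
def Fam (A : ℕ → Prop) (k N : ℕ) : Prop := Squarefree N ∧ Cn A k N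

/-- the conditions on the sets of primes -/
theorem fw_iff {A : ℕ → Prop} {k X : ℕ} {S : Finset ℕ} :
    S ∈ FW (Bd A) c0 (t0 (Fin k)) Wc X ↔
      S ∈ (PS X).filter fun S => (∀ p ∈ S, Bd A p) ∧ S.card = k ∧ Wc S := by
  rw [mem_FW bd_prime, mem_filter, mem_PS]
  have hq : QG c0 (t0 (Fin k)) S ↔ S.card = k := by
    unfold QG c0 t0
    constructor
    · intro h
      have h1 := h 0
      simp only [Finset.filter_true, Finset.card_univ, Fintype.card_fin] at h1
      exact h1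
    · intro h r
      by_cases hr : 0 = r
      · simp only [hr, Finset.filter_true, Finset.card_univ, Fintype.card_fin]
        exact h
      · simp only [hr, Finset.filter_false, Finset.card_empty]
  rw [hq]
  constructor
  · rintro ⟨a1, a2, a3, a4⟩
    exact ⟨⟨fun p hp => bd_prime _ (a1 p hp), a3⟩, a1, a2, a4⟩
  · rintro ⟨⟨-, a3⟩, a1, a2, a4⟩
    exact ⟨a1, a2, a3, a4⟩

theorem cnt_fam (A : ℕ → Prop) (k X : ℕ) :
    ((Icc 1 X).filter fun N => Fam A k N).card = (FW (Bd A) c0 (t0 (Fin k)) Wc X).card := by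
  have e := card_bij X (Cn A k) (fun S => (∀ p ∈ S, Bd A p) ∧ S.card = k ∧ Wc S)
    fun D _ => Iff.rfl
  have e2 : FW (Bd A) c0 (t0 (Fin k)) Wc X =
      (PS X).filter fun S => (∀ p ∈ S, Bd A p) ∧ S.card = k ∧ Wc S := Finset.ext fun S => fw_iff
  rw [e2]
  refine Eq.trans ?_ (e.trans ?_)
  · congr 1
    ext N
    simp only [mem_filter]
    exact Iff.rfl
  · congr 1
    ext N
    simp only [mem_filter]

theorem not_three_dvd {A : ℕ → Prop} {N : ℕ} (hN : N ≠ 0) (h : ∀ p ∈ N.primeFactors, Bd A p) :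
    ¬ 3 ∣ N := by
  intro h3
  have := (h 3 (Nat.mem_primeFactors.2 ⟨Nat.prime_three, h3, hN⟩)).2.2
  omega

theorem cnt_fam_good (A : ℕ → Prop) (k X : ℕ) :
    ((Icc 1 X).filter fun N => Fam A k N ∧ Pool.Agent.Y703.CT.NoSplit (3 * N)).card =
      ((FW (Bd A) c0 (t0 (Fin k)) Wc X).filter G3).card := by
  have e := card_bij X (fun N => Cn A k N ∧ Pool.Agent.Y703.CT.NoSplit (3 * N))
    (fun S => ((∀ p ∈ S, Bd A p) ∧ S.card = k ∧ Wc S) ∧ G3 S)
    fun D hD => by
      constructor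
      · rintro ⟨h1, h2⟩
        exact ⟨h1, (nosplit_iff hD (not_three_dvd hD.ne_zero h1.1)).1 h2⟩
      · rintro ⟨h1, h2⟩
        exact ⟨h1, (nosplit_iff hD (not_three_dvd hD.ne_zero h1.1)).2 h2⟩
  have e2 : (FW (Bd A) c0 (t0 (Fin k)) Wc X).filter G3 =
      (PS X).filter fun S => ((∀ p ∈ S, Bd A p) ∧ S.card = k ∧ Wc S) ∧ G3 S := by
    ext S
    rw [mem_filter, fw_iff, mem_filter, mem_filter, and_assoc]
  rw [e2]
  refine Eq.trans ?_ (e.trans ?_)
  · congr 1
    ext N
    simp only [mem_filter]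
    unfold Fam
    tauto
  · congr 1
    ext N
    simp only [mem_filter]

/-- **the law for the numbers** -/
theorem N_law {A : ℕ → Prop} (j : ℕ) (hD : Rich A) :
    Tendsto (fun X : ℕ => (((Icc 1 X).filter fun N => Fam A (j + 1) N ∧
        Pool.Agent.Y703.CT.NoSplit (3 * N)).card : ℝ) /
      (((Icc 1 X).filter fun N => Fam A (j + 1) N).card : ℝ)) atTop
      (𝓝 (∏ i ∈ range j, (1 - (1 / 3 : ℝ) ^ (i + 1)))) := by
  simp only [cnt_fam, cnt_fam_good]
  rcases Nat.eq_zero_or_pos j with hk | hk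
  · subst hk
    obtain ⟨c, X₀, hc, hlow⟩ := FW_low (W := Wc) (bd_prime (A := A)) (0 : Fin (0 + 1))
      (lowH (A := A) (0 : Fin (0 + 1)) hD)
    rw [Finset.range_zero, Finset.prod_empty]
    refine tendsto_const_nhds.congr' ?_
    have t3 : Tendsto (fun X : ℕ => Real.log (Real.log (X : ℝ))) atTop atTop :=
      Real.tendsto_log_atTop.comp (Real.tendsto_log_atTop.comp tendsto_natCast_atTop_atTop)
    filter_upwards [eventually_ge_atTop X₀, eventually_ge_atTop 3, t3.eventually_ge_atTop 1]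
      with X hX hX3 hll
    have hX1 : (1 : ℝ) < X := by exact_mod_cast (by omega : 1 < X)
    have hl : 0 < Real.log X := Real.log_pos hX1
    have h4 := hlow X hX
    have h6 : (0 : ℝ) < ((FW (Bd A) c0 (t0 (Fin (0 + 1))) Wc X).card : ℝ) := by
      refine lt_of_lt_of_le ?_ h4
      have : 0 < Real.log (Real.log X) := by linarith
      positivity
    have h7 : (FW (Bd A) c0 (t0 (Fin (0 + 1))) Wc X).filter G3 =
        FW (Bd A) c0 (t0 (Fin (0 + 1))) Wc X := by
      refine Finset.filter_true_of_mem fun S hS => ?_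
      rw [fw_iff, mem_filter] at hS
      obtain ⟨-, h1, h2, h3⟩ := hS
      obtain ⟨p, rfl⟩ := Finset.card_eq_one.1 h2
      obtain ⟨q, hq, h3⟩ := h3
      rw [mem_singleton] at hq
      subst hq
      have hp := h1 q (mem_singleton_self q)
      have hq3 : q ≠ 3 := by
        rintro rfl
        have := hp.2.2
        omega
      intro c hc
      have e := hc q (mem_union_right _ (mem_singleton_self q)) hp.2.2
      have e1 : ({3} ∪ {q} : Finset ℕ) = {3, q} := rfl
      rw [e1, Finset.sum_pair hq3.symm, sub_self, zero_mul, add_zero] at e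
      have e2 : c 3 = c q := by
        rcases mul_eq_zero.1 e with h | h
        · exact sub_eq_zero.1 h
        · exact absurd h h3
      intro a ha b hb
      have key : ∀ x ∈ ({3} ∪ {q} : Finset ℕ), c x = c q := by
        intro x hx
        rw [mem_union, mem_singleton, mem_singleton] at hx
        rcases hx with rfl | rfl
        · exact e2
        · rfl
      rw [key a ha, key b hb]
    rw [h7, div_self h6.ne']
  · obtain ⟨i, rfl⟩ : ∃ i, j = i + 1 := ⟨j - 1, by omega⟩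
    have h := set_law (A := A) (ι := Fin (i + 1 + 1)) (j := i)
      (by rw [Fintype.card_fin]) 0 hD
    rw [Fintype.card_fin] at h
    exact h

/-- the size of the family -/
theorem N_size {A : ℕ → Prop} (j : ℕ) (hD : Rich A) :
    ∃ (c C : ℝ) (X₀ : ℕ), 0 < c ∧ 0 < C ∧ ∀ X : ℕ, X₀ ≤ X →
      c * (X * Real.log (Real.log X) ^ j / Real.log X) ≤
        (((Icc 1 X).filter fun N => Fam A (j + 1) N).card : ℝ) ∧
      (((Icc 1 X).filter fun N => Fam A (j + 1) N).card : ℝ) ≤
        C * (X * Real.log (Real.log X) ^ j / Real.log X) := by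
  obtain ⟨c, X₀, hc, hlow⟩ := FW_low (W := Wc) (bd_prime (A := A)) (0 : Fin (j + 1))
    (lowH (A := A) (0 : Fin (j + 1)) hD)
  obtain ⟨C, X₁, hC, hup⟩ := FW_up (B := Bd A) (cl := c0) (τ := t0 (Fin (j + 1))) bd_prime (j := j)
    (Fintype.card_fin _) Wc
  refine ⟨c, C, max X₀ X₁, hc, hC, fun X hX => ?_⟩
  rw [cnt_fam]
  have h6 := hlow X ((le_max_left _ _).trans hX)
  rw [Fintype.card_fin, Nat.add_sub_cancel] at h6
  exact ⟨h6, hup X ((le_max_right _ _).trans hX)⟩

end Pool.Agent.W2helper73.CC
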