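import Pool.Agent.V11291.FK.Cub

/-!
# Project CC: the count in a box, with the prime `3` as an additional vertex

Adapted from `Pool.Agent.V11291.FK.Cub`.
-/

set_option autoImplicit false
set_option linter.unusedSectionVars false
set_option linter.unusedVariables false

open scoped Classical

namespace Pool.Agent.W2helper73.CC

open Finset Filter Topology Module
open Pool.Agent.Y703.CX
open Pool.Agent.Y699.E (ez)
open Pool.Agent.Y759.CX (F fr fr_equiv fr_compl pm Gb mA mB mC eR card_ne mC_inj)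
open Pool.Agent.Y911.CX (HB_sub root12 prs_card le_XX)
open Pool.Agent.V11291.FK

/-- the condition with the vertex `3` -/
def G3 (S : Finset ℕ) : Prop := Gd ({3} ∪ S)

/-- the probability that a random completion is good, one additional vertex without equation -/
theorem LAc {U J : Type} [Fintype U] [Fintype J] (ks : J) (hU : Fintype.card U = 1)
    (A : U → U → ZMod 3) (B : U → J → ZMod 3)
    (C : J → U → ZMod 3) (hC : ∃ k u, C k u ≠ 0) :
    ((univ.filter fun α : prs (univ : Finset J) → ZMod 3 =>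
      GdA (∅ : Finset U) univ A B C (Pool.Agent.Y703.CX.ext α)).card : ℝ) /
      3 ^ (prs (univ : Finset J)).card = pm (Fintype.card J - 1) := by
  have hJ1 : 1 ≤ Fintype.card J := Fintype.card_pos_iff.2 ⟨ks⟩
  have e1 : finrank F (U → F) = 1 := by
    rw [finrank_fintype_fun_eq_card, hU]
  have e2 : finrank F ({l : J // l ≠ ks} → F) = Fintype.card J - 1 := by
    rw [finrank_fintype_fun_eq_card, card_ne]
  have e4 : finrank F (↥(univ : Finset J) → F) = Fintype.card J := by
    rw [finrank_fintype_fun_eq_card, Fintype.card_coe, Finset.card_univ]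
  have h5 : ((univ.filter fun α : prs (univ : Finset J) → ZMod 3 =>
      GdA (∅ : Finset U) univ A B C (Pool.Agent.Y703.CX.ext α)).card : ℝ) /
      3 ^ (prs (univ : Finset J)).card = fr (fun R : ({l : J // l ≠ ks} → F) →ₗ[F]
        (↥(univ : Finset J) → F) =>
        Gb (mA ∅ A B) (mB ks ∅ B) (mC univ C) R) := by
    rw [← fr_equiv (eR ks univ C)]
    unfold fr
    have h6 : Nat.card (prs (univ : Finset J) → F) = 3 ^ (prs (univ : Finset J)).card := by
      rw [Nat.card_fun, Nat.card_eq_fintype_card, Nat.card_eq_fintype_card, ZMod.card,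
        Fintype.card_coe]
    rw [h6, Nat.card_eq_fintype_card, Fintype.card_subtype]
    push_cast
    congr 3
    refine Finset.filter_congr fun α _ => ?_
    exact Pool.Agent.Y759.CX.gd_iff ks ∅ univ A B C α
  rw [h5]
  have hinj : Function.Injective (mC (univ : Finset J) C) := by
    refine mC_inj _ _ fun w hw => ?_
    obtain ⟨u, hu⟩ := hw
    obtain ⟨k, u', hk⟩ := hC
    obtain ⟨a, ha⟩ := Fintype.card_eq_one_iff.1 hU
    refine ⟨k, mem_univ _, ?_⟩
    rw [Finset.sum_eq_single a (fun b _ hb => absurd (ha b) hb)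
      (fun h => absurd (mem_univ _) h)]
    rw [ha u] at hu
    rw [ha u'] at hk
    exact mul_ne_zero hu hk
  have h7 : (fun R : ({l : J // l ≠ ks} → F) →ₗ[F] (↥(univ : Finset J) → F) =>
      Gb (mA ∅ A B) (mB ks ∅ B) (mC univ C) R) =
      fun R : ({l : J // l ≠ ks} → F) →ₗ[F] (↥(univ : Finset J) → F) =>
        Function.Injective ((mC univ C).coprod R) := by
    funext R
    apply propext
    unfold Gb
    rw [injective_iff_map_eq_zero]
    constructor
    · rintro h ⟨x, v⟩ hv
      rw [LinearMap.coprod_apply] at hv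
      obtain ⟨h1, h2⟩ := h x v (Subsingleton.elim _ _) hv
      rw [h1, h2]
      rfl
    · intro h x v _ h2
      have h3 := h (x, v) (by rw [LinearMap.coprod_apply]; exact h2)
      exact ⟨congrArg Prod.fst h3, congrArg Prod.snd h3⟩
  rw [h7]
  exact fr_compl e2 _ hinj (by rw [e1, e4]; omega)

/-- **The count in a box.** -/
theorem box3c {ι : Type} [Fintype ι] (ks : ι) (C : ι → Finset ℕ) (X : ι → ℕ)
    (κ : ℝ) (hκ : 0 ≤ κ) (hCX : ∀ i, (C i).card ≤ X i) (hHB : HB univ C X κ)
    (hC : ∀ i, ∀ p ∈ C i, p.Prime ∧ p % 3 = 1) (β : ι → ZMod 3) (hβ : ∃ i, β i ≠ 0)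
    (hCβ : ∀ i, ∀ p ∈ C i, lam p 3 = β i)
    (hdis : ∀ i l, i ≠ l → Disjoint (C i) (C l)) :
    |(((Fintype.piFinset C).filter fun p => G3 (univ.image p)).card : ℝ) -
        pm (Fintype.card ι - 1) * ((Fintype.piFinset C).card : ℝ)| ≤
      3 ^ (prs (univ : Finset ι)).card * (κ * ∏ j, (X j : ℝ)) := by
  have hinj : ∀ p ∈ Fintype.piFinset C, Function.Injective p := by
    intro p hp i j hij
    rw [Fintype.mem_piFinset] at hp
    by_contra hne
    have h1 := Finset.disjoint_left.1 (hdis i j hne) (hp i)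
    rw [hij] at h1
    exact h1 (hp j)
  have hJ : ∀ p ∈ Fintype.piFinset C, ∀ i, p i % 3 = 1 ↔ i ∈ (univ : Finset ι) := by
    intro p hp i
    rw [Fintype.mem_piFinset] at hp
    exact ⟨fun _ => mem_univ _, fun _ => (hC i _ (hp i)).2⟩
  have hne : (univ : Finset ι).Nonempty := ⟨ks, mem_univ _⟩
  have hnot : ∀ p ∈ Fintype.piFinset C, ∀ i, p i ∉ ({3} : Finset ℕ) := by
    intro p hp i h
    rw [Fintype.mem_piFinset] at hp
    rw [mem_singleton] at h
    have := (hC i _ (hp i)).2
    omega
  set Q : (prs (univ : Finset ι) → ZMod 3) → Prop := fun α =>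
    GdA (∅ : Finset ({3} : Finset ℕ)) univ
      (fun u v : ({3} : Finset ℕ) => lam u v) (fun (u : ({3} : Finset ℕ)) (l : ι) => 0)
      (fun (k : ι) (u : ({3} : Finset ℕ)) => β k) (Pool.Agent.Y703.CX.ext α) with hQ
  have h2 : ((univ.filter Q).card : ℝ) / 3 ^ (prs (univ : Finset ι)).card =
      pm (Fintype.card ι - 1) :=
    LAc ks (by rw [Fintype.card_coe, Finset.card_singleton]) _ _ _ (by
      obtain ⟨i, hi⟩ := hβ
      exact ⟨i, ⟨3, mem_singleton_self 3⟩, hi⟩)
  have h3 := Pool.Agent.Y419.CX.t_EQ ι univ C X κ hκ hCX hHB Q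
  have h4 : ((Fintype.piFinset C).filter fun p => G3 (univ.image p)) =
      ((Fintype.piFinset C).filter fun p => Q fun e => lam (p e.1.1) (p e.1.2)) := by
    refine Finset.filter_congr fun p hp => ?_
    have e := Pool.Agent.Y911.CX.gd_iff (S₀ := {3}) (hinj p hp) (hnot p hp) hne (hJ p hp)
    unfold G3
    rw [e, hQ]
    have e0 : (univ.filter fun u : ({3} : Finset ℕ) => (u : ℕ) % 3 = 1) = ∅ := by
      refine Finset.filter_eq_empty_iff.2 fun u _ h => ?_
      have := mem_singleton.1 u.2
      omega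
    have e2 : (fun k (u : ({3} : Finset ℕ)) => lam (p k) u) = fun k _ => β k := by
      funext k u
      rw [Fintype.mem_piFinset] at hp
      rw [mem_singleton.1 u.2]
      exact hCβ k _ (hp k)
    rw [e0, e2]
    unfold GdA
    constructor
    · intro h c d _ h2
      exact h c d (fun u hu => absurd hu (Finset.notMem_empty _)) h2
    · intro h c d _ h2
      exact h c d (fun u hu => absurd hu (Finset.notMem_empty _)) h2
  have h5 : (((Fintype.piFinset C).card : ℕ) : ℝ) = ∏ j, ((C j).card : ℝ) := by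
    rw [Fintype.card_piFinset]
    push_cast
    rfl
  rw [h4, h5, ← h2]
  exact h3

theorem box3 {ι : Type} [Fintype ι] [inst : DecidableEq ι] (ks : ι)
    (C : ι → Finset ℕ) (X : ι → ℕ)
    (κ : ℝ) (hκ : 0 ≤ κ) (hCX : ∀ i, (C i).card ≤ X i) (hHB : HB univ C X κ)
    (hC : ∀ i, ∀ p ∈ C i, p.Prime ∧ p % 3 = 1) (β : ι → ZMod 3) (hβ : ∃ i, β i ≠ 0)
    (hCβ : ∀ i, ∀ p ∈ C i, lam p 3 = β i)
    (hdis : ∀ i l, i ≠ l → Disjoint (C i) (C l)) :
    |(((Fintype.piFinset C).filter fun p => G3 (univ.image p)).card : ℝ) -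
        pm (Fintype.card ι - 1) * ((Fintype.piFinset C).card : ℝ)| ≤
      3 ^ (prs (univ : Finset ι)).card * (κ * ∏ j, (X j : ℝ)) := by
  have e : inst = fun a b => Classical.propDecidable _ := Subsingleton.elim _ _
  subst e
  exact box3c ks C X κ hκ hCX hHB hC β hβ hCβ hdis

section tup

variable {ι : Type} [Fintype ι] [LinearOrder ι]

/-- **The sum over the boxes.** -/
theorem sum_boxes3 (ks : ι) :
    ∃ C : ℝ, 1 ≤ C ∧ ∀ (P : ι → ℕ → Prop) (β : ι → ZMod 3) (X z H N : ℕ) (κ : ℝ),
      (∀ i p, P i p → p.Prime ∧ p % 3 = 1 ∧ lam p 3 = β i) → (∃ i, β i ≠ 0) →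
      1 ≤ H → 1 ≤ z → 0 ≤ κ → C ≤ κ ^ 12 * z → (H : ℝ) * Real.log X < N →
      |(((Tup P X).filter fun p => ¬ Exc X z H p ∧ G3 (univ.image p)).card : ℝ) -
          pm (Fintype.card ι - 1) * (((Tup P X).filter fun p => ¬ Exc X z H p).card : ℝ)| ≤
        (N : ℝ) ^ Fintype.card ι * (3 ^ (Fintype.card ι ^ 2) * (κ * X)) := by
  obtain ⟨C₁, hC₁, h1⟩ := Pool.Agent.Y261.CX.t_BIL1 Pool.Agent.Y333.CX.t_LAM
  refine ⟨C₁, hC₁, ?_⟩
  intro P β X z H N κ hP hβ hH hz hκ hκ1 hN
  have hPp : ∀ i p, P i p → p.Prime := fun i p h => (hP i p h).1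
  have hz0 : (0 : ℝ) < z := by exact_mod_cast hz
  -- the value in a box
  set B : Finset (ι → ℕ) := Fintype.piFinset fun _ : ι => range N with hBd
  have hmem : ∀ p ∈ Tup P X, (fun i => jj H (p i)) ∈ B := by
    intro p hp
    rw [mem_Tup hPp] at hp
    rw [hBd, Fintype.mem_piFinset]
    intro i
    rw [mem_range]
    have hp0 := (hPp i _ (hp.1 i)).pos
    have hqX : p i ≤ X := by
      refine le_trans ?_ hp.2.2
      exact Nat.le_of_dvd (Finset.prod_pos fun j _ => (hPp j _ (hp.1 j)).pos)
        (Finset.dvd_prod_of_mem _ (mem_univ i))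
    have h3 : ((jj H (p i) : ℕ) : ℝ) < N := by
      refine lt_of_le_of_lt (Nat.floor_le (mul_nonneg (Nat.cast_nonneg _)
        (Real.log_nonneg (by exact_mod_cast hp0)))) ?_
      refine lt_of_le_of_lt ?_ hN
      refine mul_le_mul_of_nonneg_left ?_ (Nat.cast_nonneg _)
      exact Real.log_le_log (by exact_mod_cast hp0) (by exact_mod_cast hqX)
    exact_mod_cast h3
  have hfib : ∀ T : (ι → ℕ) → Prop,
      (((Tup P X).filter fun p => ¬ Exc X z H p ∧ T p).card : ℝ) =
      ∑ b ∈ B, ((((Tup P X).filter fun p => ¬ Exc X z H p ∧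
        (fun i => jj H (p i)) = b).filter T).card : ℝ) := by
    intro T
    rw [Finset.card_eq_sum_card_fiberwise (f := fun (p : ι → ℕ) (i : ι) => jj H (p i))
      (t := B) (fun p hp => by
        rw [mem_coe, mem_filter] at hp
        exact mem_coe.2 (hmem p hp.1))]
    push_cast
    refine Finset.sum_congr rfl fun b _ => ?_
    congr 2
    ext p
    simp only [mem_filter]
    tauto
  have hf1 := hfib fun p => G3 (univ.image p)
  have hf2 := hfib fun _ => True
  simp only [and_true, Finset.filter_true] at hf2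
  rw [hf1, hf2, Finset.mul_sum, ← Finset.sum_sub_distrib]
  refine (Finset.abs_sum_le_sum_abs _ _).trans ?_
  have hbox : ∀ b ∈ B, |((((Tup P X).filter fun p => ¬ Exc X z H p ∧
        (fun i => jj H (p i)) = b).filter fun p => G3 (univ.image p)).card : ℝ) -
      pm (Fintype.card ι - 1) * (((Tup P X).filter fun p => ¬ Exc X z H p ∧
        (fun i => jj H (p i)) = b).card : ℝ)| ≤
      3 ^ (Fintype.card ι ^ 2) * (κ * X) := by
    intro b _
    by_cases hb : Function.Injective b ∧ ∏ i, XX H (b i) ≤ X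
    · rw [fib_eq hPp hH hb.1 hb.2]
      have hmb : ∀ i, ∀ p ∈ bx P z H b i, P i p ∧ jj H p = b i ∧ z < p ∧ p ≤ XX H (b i) := by
        intro i p hp
        unfold bx at hp
        rw [mem_filter, mem_Icc] at hp
        exact ⟨hp.2.1, hp.2.2.1, hp.2.2.2, hp.1.2⟩
      have hdis : ∀ i l, i ≠ l → Disjoint (bx P z H b i) (bx P z H b l) := by
        intro i l hil
        rw [Finset.disjoint_left]
        intro p hp hp'
        exact hil (hb.1 ((hmb i p hp).2.1.symm.trans (hmb l p hp').2.1))
      have m1 : ∀ e : ι, ∀ p ∈ bx P z H b e, p.Prime ∧ p % 3 = 1 ∧ p ≤ XX H (b e) := by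
        intro e p hp
        have h3 := hmb e p hp
        have h4 := hP e p h3.1
        exact ⟨h4.1, h4.2.1, h3.2.2.2⟩
      have hHB : HB univ (bx P z H b) (fun i => XX H (b i)) κ := by
        intro i l hil a c' c d hab ha hb' hc hd
        show ‖∑ x ∈ bx P z H b i, ∑ y ∈ bx P z H b l, c x * d y * ez (a * lam x y + c' * lam y x)‖ ≤
          κ * ((XX H (b i) : ℝ) * (XX H (b l) : ℝ))
        have hk0 : (0 : ℝ) ≤ κ * ((XX H (b i) : ℝ) * (XX H (b l) : ℝ)) := by positivity
        rcases (bx P z H b i).eq_empty_or_nonempty with he | ⟨p₀, hp₀⟩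
        · rw [he, Finset.sum_empty, norm_zero]
          exact hk0
        rcases (bx P z H b l).eq_empty_or_nonempty with he | ⟨q₀, hq₀⟩
        · rw [he]
          simp only [Finset.sum_empty, Finset.sum_const_zero, norm_zero]
          exact hk0
        have hzi : z ≤ XX H (b i) := by
          have := hmb i p₀ hp₀
          omega
        have hzl : z ≤ XX H (b l) := by
          have := hmb l q₀ hq₀
          omega
        have h3 := h1 (bx P z H b i) (bx P z H b l) (XX H (b i)) (XX H (b l)) z c d a c'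
          (m1 i) (m1 l) (hdis i l hil) hab hz hzi hzl hc hd
        exact root12 (norm_nonneg _) hκ (Nat.cast_nonneg _) (Nat.cast_nonneg _) hz0 h3 hκ1
      have h6 := box3 ks (bx P z H b) (fun i => XX H (b i)) κ hκ
        (fun i => by
          refine (Finset.card_filter_le _ _).trans ?_
          rw [Nat.card_Icc]
          omega) hHB
        (fun i p hp => by
          have h3 := hmb i p hp
          have h4 := hP i p h3.1
          exact ⟨h4.1, h4.2.1⟩) β hβ
        (fun i p hp => (hP i p (hmb i p hp).1).2.2) hdis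
      refine h6.trans ?_
      have h2 : ∏ j, ((XX H (b j) : ℕ) : ℝ) ≤ X := by exact_mod_cast hb.2
      have h3 : (prs (univ : Finset ι)).card ≤ Fintype.card ι ^ 2 := by
        rw [pow_two]
        exact prs_card univ
      have h4 : κ * ∏ j, ((XX H (b j) : ℕ) : ℝ) ≤ κ * X := mul_le_mul_of_nonneg_left h2 hκ
      have h5 : (0 : ℝ) ≤ κ * ∏ j, ((XX H (b j) : ℕ) : ℝ) :=
        mul_nonneg hκ (Finset.prod_nonneg fun j _ => by positivity)
      refine mul_le_mul ?_ h4 h5 (by positivity)
      exact pow_le_pow_right₀ (by norm_num) (by omega)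
    · rw [fib_empty hb]
      simp only [Finset.filter_empty, Finset.card_empty, Nat.cast_zero, mul_zero, sub_zero, abs_zero]
      positivity
  refine (Finset.sum_le_sum hbox).trans ?_
  rw [Finset.sum_const, nsmul_eq_mul, hBd, Fintype.card_piFinset]
  simp only [Finset.card_range, Finset.prod_const, Finset.card_univ]
  push_cast
  exact le_rfl

end tup

end Pool.Agent.W2helper73.CC
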