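import Pool.Agent.W2helper73.CC.Lin

/-!
# Project CC: translation between the numbers `3 M` and the sets of primes

Adapted from `Pool.Agent.Y710.CX.NS`.
-/

set_option autoImplicit false

open scoped Classical

namespace Pool.Agent.W2helper73.CC

open Finset Pool.Agent.Y703.CX
open Pool.Agent.Y703.CT (NoSplit)
open Pool.Agent.Y710.CX (dd part part_prime prod_dd lam_dd cube_two)

theorem cube_three (n : ℤ) : ∃ x : ℤ, ((3 : ℕ) : ℤ) ∣ n - x ^ 3 := by
  refine ⟨n, ?_⟩
  have h : ∀ a : ZMod 3, a - a ^ 3 = 0 := by decide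
  rw [← ZMod.intCast_zmod_eq_zero_iff_dvd]
  push_cast
  exact h _

theorem gd_of_nosplit {D : ℕ} (hD : Squarefree D) (hn : NoSplit D) : Gd D.primeFactors := by
  have h := Pool.Agent.Y333.CX.t_LAM
  intro c hc
  have hS : ∀ q ∈ D.primeFactors, q.Prime := fun q hq => Nat.prime_of_mem_primeFactors hq
  obtain ⟨S, hSd⟩ : ∃ S, S = D.primeFactors := ⟨_, rfl⟩
  rw [← hSd] at hS hc ⊢
  have hprod : ∏ q ∈ S, q = D := by
    rw [hSd]
    exact Nat.prod_primeFactors_of_squarefree hD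
  have hcase : ∀ p ∈ S, p % 3 = 1 ∨ p % 3 = 2 ∨ p = 3 := by
    intro p hp
    by_cases h3 : p % 3 = 0
    · right; right
      exact ((Nat.prime_dvd_prime_iff_eq Nat.prime_three (hS p hp)).1
        (Nat.dvd_of_mod_eq_zero h3)).symm
    · omega
  have hmem : ∀ (i : ZMod 3) (p : ℕ), p.Prime → p ∣ dd S c i → p ∈ S ∧ c p = i := by
    intro i p hp hd
    unfold dd at hd
    obtain ⟨q, hq, hpq⟩ := (hp.prime.dvd_finsetProd_iff _).1 hd
    rw [(Nat.prime_dvd_prime_iff_eq hp (part_prime hS c i q hq)).1 hpq]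
    exact Finset.mem_filter.1 hq
  have hA : ∀ i j : ZMod 3, i ≠ j → Nat.Coprime (dd S c i) (dd S c j) := by
    intro i j hij
    refine Nat.coprime_of_dvd fun p hp h1 h2 => ?_
    have e1 := (hmem _ p hp h1).2
    have e2 := (hmem _ p hp h2).2
    exact hij (e1.symm.trans e2)
  have hB : ∀ (i : ZMod 3) (p : ℕ), p.Prime → p ∣ dd S c i →
      ∃ x : ℤ, (p : ℤ) ∣ (dd S c (i + 1) : ℤ) * (dd S c (i + 2) : ℤ) ^ 2 - x ^ 3 := by
    intro i p hp hd
    obtain ⟨hpS, hcp⟩ := hmem i p hp hd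
    rcases hcase p hpS with h1 | h2 | h3
    · obtain ⟨k1, k2⟩ := lam_dd h hS c hp h1
      rw [hcp] at k1 k2
      have k3 := hc p hpS h1
      rw [hcp] at k3
      rw [k3] at k2
      have := (h.cube p _ hp h1 k1).1 k2
      push_cast at this
      exact this
    · exact cube_two hp h2 _
    · rw [h3]
      exact cube_three _
  have hC := hn (dd S c) ((prod_dd c).trans hprod) hA hB
  obtain ⟨i, hi⟩ := hC
  have hall : ∀ p ∈ S, c p = i := by
    intro p hp
    by_contra hne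
    have h1 := hi (c p) hne
    have h2 : p ∣ dd S c (c p) := by
      unfold dd
      exact Finset.dvd_prod_of_mem _ (Finset.mem_filter.2 ⟨hp, rfl⟩)
    rw [h1] at h2
    exact (hS p hp).one_lt.ne' (Nat.dvd_one.1 h2)
  intro p hp q hq
  rw [hall p hp, hall q hq]

theorem nosplit_of_gd {D : ℕ} (hD : Squarefree D) (hq0 : ∃ q, q ∈ D.primeFactors)
    (hg : Gd D.primeFactors) : NoSplit D := by
  have h := Pool.Agent.Y333.CX.t_LAM
  intro d hd hcop hcube
  have hS : ∀ q ∈ D.primeFactors, q.Prime := fun q hq => Nat.prime_of_mem_primeFactors hq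
  -- the labels
  have hex : ∀ p ∈ D.primeFactors, ∃ i : ZMod 3, p ∣ d i := by
    intro p hp
    have h1 : p ∣ ∏ i, d i := by
      rw [hd]
      exact Nat.dvd_of_mem_primeFactors hp
    obtain ⟨i, -, hi⟩ := ((hS p hp).prime.dvd_finsetProd_iff _).1 h1
    exact ⟨i, hi⟩
  have huniq : ∀ p : ℕ, p.Prime → ∀ i j : ZMod 3, p ∣ d i → p ∣ d j → i = j := by
    intro p hp i j h1 h2
    by_contra hne
    have h3 : p ∣ Nat.gcd (d i) (d j) := Nat.dvd_gcd h1 h2
    rw [Nat.Coprime.gcd_eq_one (hcop i j hne)] at h3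
    exact hp.one_lt.ne' (Nat.dvd_one.1 h3)
  obtain ⟨c, hc⟩ : ∃ c : ℕ → ZMod 3, ∀ p ∈ D.primeFactors, p ∣ d (c p) := by
    refine ⟨fun p => if hp : ∃ i : ZMod 3, p ∣ d i then hp.choose else 0, fun p hp => ?_⟩
    have := hex p hp
    simp only [this, dif_pos]
    exact this.choose_spec
  have h0 : D ≠ 0 := hD.ne_zero
  have hdD : ∀ i, d i ∣ D := fun i => by
    rw [← hd]
    exact Finset.dvd_prod_of_mem _ (Finset.mem_univ i)
  have hdd : ∀ i, dd D.primeFactors c i = d i := by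
    intro i
    unfold dd
    rw [← Nat.prod_primeFactors_of_squarefree (hD.squarefree_of_dvd (hdD i))]
    refine Finset.prod_congr ?_ fun _ _ => rfl
    ext p
    unfold part
    rw [Finset.mem_filter, Nat.mem_primeFactors, Nat.mem_primeFactors]
    constructor
    · rintro ⟨⟨hp, hpD, -⟩, rfl⟩
      exact ⟨hp, hc p (Nat.mem_primeFactors.2 ⟨hp, hpD, h0⟩),
        fun h => h0 (Nat.eq_zero_of_zero_dvd (h ▸ hdD _))⟩
    · rintro ⟨hp, hpd, -⟩
      have hpm : p ∈ D.primeFactors := Nat.mem_primeFactors.2 ⟨hp, hpd.trans (hdD i), h0⟩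
      exact ⟨⟨hp, hpd.trans (hdD i), h0⟩, huniq p hp _ _ (hc p hpm) hpd⟩
  have hsol : Sol D.primeFactors c := by
    intro p hp hp1
    obtain ⟨k1, k2⟩ := lam_dd h hS c (hS p hp) hp1
    rw [← k2]
    rw [h.cube p _ (hS p hp) hp1 k1, hdd, hdd]
    have := hcube (c p) p (hS p hp) (hc p hp)
    push_cast
    exact this
  have hconst := hg c hsol
  -- a prime of the set
  obtain ⟨q, hqm⟩ := hq0
  refine ⟨c q, fun j hj => ?_⟩
  by_contra hne
  obtain ⟨p, hp, hpd⟩ := Nat.exists_prime_and_dvd hne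
  have hpm : p ∈ D.primeFactors := Nat.mem_primeFactors.2 ⟨hp, hpd.trans (hdD j), h0⟩
  have h1 := huniq p hp _ _ (hc p hpm) hpd
  rw [hconst p hpm q hqm] at h1
  exact hj h1.symm

theorem sq_three {M : ℕ} (hM : Squarefree M) (h3 : ¬ 3 ∣ M) : Squarefree (3 * M) := by
  rw [Nat.squarefree_mul ((Nat.Prime.coprime_iff_not_dvd Nat.prime_three).2 h3)]
  exact ⟨Nat.prime_three.prime.squarefree, hM⟩

theorem pf_three {M : ℕ} (hM : M ≠ 0) : (3 * M).primeFactors = {3} ∪ M.primeFactors := by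
  rw [Nat.primeFactors_mul (by norm_num) hM, Nat.Prime.primeFactors Nat.prime_three]

/-- the translation -/
theorem nosplit_iff {M : ℕ} (hM : Squarefree M) (h3 : ¬ 3 ∣ M) :
    NoSplit (3 * M) ↔ G3 M.primeFactors := by
  have h1 := sq_three hM h3
  have h2 := pf_three hM.ne_zero
  unfold G3
  rw [← h2]
  exact ⟨gd_of_nosplit h1, nosplit_of_gd h1 ⟨3, by
    rw [h2]
    exact Finset.mem_union_left _ (Finset.mem_singleton_self 3)⟩⟩

end Pool.Agent.W2helper73.CC
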