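import Pool.Agent.W2helper73.CC.Cri
import Pool.Agent.R395.CT.Light
import Pool.Agent.R486.TC.FinPts
import Pool.Agent.R486.TC.NoPt

/-!
# Project CC: the descent for the numbers `3 M`, all prime factors of `M` are `1` modulo `3`
-/

set_option autoImplicit false
set_option linter.unusedSectionVars false

open scoped Classical

namespace Pool.Agent.W2helper73.CC

open Pool.Agent.Y703.CT
open Pool.Agent.Y692.QS (Ei w nr toC)
open Pool.Agent.Y715.T.Rec (cs)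
open Pool.Agent.Y715.T.RecG (Pq)
open Pool.Agent.Y715.T.Gi Pool.Agent.Y715.T.Nr Pool.Agent.Y715.T.Df Pool.Agent.Y715.T.Ell
open Pool.Agent.TH841.SH.D (Sha)

/-- `M ≠ 1` is free of cubes and all its prime factors are `1` modulo `3` -/
def ClC (M : ℕ) : Prop := Base M ∧ M ≠ 1 ∧ ∀ p : ℕ, p.Prime → p ∣ M → p % 3 = 1

/-- **The descent.** -/
theorem triv3C {M : ℕ} (hC : ClC M) (hN : NoSplit (3 * M)) :
    Finite (EQ (WD ((3 * M : ℕ) : ℤ))).toAffine.Point ∧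
    padicValNat 3 (Nat.card (EQ (WD ((3 * M : ℕ) : ℤ))).toAffine.Point) = 1 ∧
    ∀ (n : ℕ) (x : Sha (EQ (WD ((3 * M : ℕ) : ℤ)))), 3 ^ n • x = 0 → x = 0 := by
  obtain ⟨hB, hM1, hM⟩ := hC
  obtain ⟨n, π, e, hD, hDp⟩ := Pool.Agent.Y274.CT.t_exi M hB
  have hne : Nonempty (Fin n) := by
    rw [← not_isEmpty_iff]
    intro hE
    have h1 : pD π e = 1 := by
      unfold pD
      rw [Finset.univ_eq_empty, Finset.prod_empty]
    rw [h1] at hDp
    have h2 : nr (M : Ei) = (M : ℤ) ^ 2 := Pool.Agent.Y692.QS.nr_nat M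
    have h3 : nr (M : Ei) = 1 := by
      rcases hDp with h | h <;> rw [h] <;> decide
    rw [h3] at h2
    have h4 : (M : ℤ) ≤ 1 := by nlinarith
    have h5 : M ≠ 0 := hB.1
    omega
  obtain ⟨j₀⟩ := hne
  have hk : KerC π e := criC hM hN hD hDp
  obtain ⟨i₀, hi⟩ : ∃ i₀ : QB, i₀ ^ 2 + i₀ + 1 = 0 := by
    obtain ⟨x, hx⟩ := IsAlgClosed.exists_root
      (Polynomial.X ^ 2 + Polynomial.X + 1 : Polynomial QB) (by
        have : (Polynomial.X ^ 2 + Polynomial.X + 1 : Polynomial QB).degree = 2 := by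
          compute_degree!
        rw [this]
        norm_num)
    refine ⟨x, ?_⟩
    have h1 := hx
    rw [Polynomial.IsRoot] at h1
    simpa using h1
  have hne3 : (3 : Ei) * pD π e ≠ 0 := three_pD hD
  obtain ⟨u, a, hT⟩ := Pool.Agent.R395.CT.exists_tw hi hne3
  have hsel : Sel1 hi a := selC hD hk hT
  have ha : ∃ σ, a σ ≠ 0 := by
    obtain ⟨p, hp, ι, hl⟩ := exists_emb hi (hD.pq j₀).prime
    obtain ⟨τ, σ, -, -, h1⟩ := exists_move hD hT j₀ ι hl
    exact ⟨σ, h1⟩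
  have h1 : ShK hi a := Pool.Agent.Y155.CT.t_SHK _ hne3 i₀ hi u a hT hsel
  have h2 : MwK hi a := Pool.Agent.Y155.CT.t_MWK _ hne3 i₀ hi u a hT ha hsel
  have hD0 : ((3 * M : ℕ) : ℤ) ≠ 0 := by
    have h5 : M ≠ 0 := hB.1
    exact_mod_cast (by omega : 3 * M ≠ 0)
  rcases hDp with h | h
  · have hT' : Tw hi (((3 * M : ℕ) : ℤ) : Ei) u a := by
      have e1 : (((3 * M : ℕ) : ℤ) : Ei) = 3 * pD π e := by
        rw [← h]
        push_cast
        rfl
      rw [e1]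
      exact hT
    exact Pool.Agent.Y692.CT.desq _ hD0 i₀ hi u a hT' h1 h2
  · have hT' : Tw hi (((3 * M : ℕ) : ℤ) : Ei) (-u) a := by
      have e1 : (((3 * M : ℕ) : ℤ) : Ei) = -(3 * pD π e) := by
        push_cast
        rw [h]
        ring
      rw [e1]
      refine ⟨?_, fun σ => ?_⟩
      · rw [Odd.neg_pow (by decide), hT.cube, map_neg]
      · rw [map_neg, hT.act σ]
        ring
    exact Pool.Agent.Y692.CT.desq _ hD0 i₀ hi (-u) a hT' h1 h2

theorem fin_ptsC {M : ℕ} (hC : ClC M) (hN : NoSplit (3 * M)) :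
    {q : ℚ × ℚ | q.2 ^ 2 = q.1 ^ 3 + ((0 : ℤ) : ℚ) * q.1 +
      ((-432 * ((3 * M : ℕ) : ℤ) ^ 2 : ℤ) : ℚ)}.Finite := by
  have hD0 : ((3 * M : ℕ) : ℤ) ≠ 0 := by
    have h5 : M ≠ 0 := hC.1.1
    exact_mod_cast (by omega : 3 * M ≠ 0)
  exact Pool.Agent.R486.TC.fin_pts hD0 (triv3C hC hN).1

end Pool.Agent.W2helper73.CC
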